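import Mathlib

/-!
# Commutator calculus and rigidity: large values of characters of commutators
-/

namespace Pool.Agent.R783.Nil

open Topology Set Filter
open scoped commutatorElement

universe u

theorem circle_small {z : Circle} (h : ∀ n : ℕ, ‖(z : ℂ) ^ n - 1‖ < 1) : z = 1 := by
  by_contra hz
  have hz' : (z : ℂ) - 1 ≠ 0 := by
    intro h0
    apply hz
    apply Circle.ext
    rw [Circle.coe_one]
    linear_combination h0
  have hpos : 0 < ‖(z : ℂ) - 1‖ := norm_pos_iff.mpr hz'
  have key : ∀ v : ℂ, ‖v‖ = 1 → ‖v - 1‖ < 1 → 3 / 2 * ‖v - 1‖ ≤ ‖v ^ 2 - 1‖ := by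
    intro v hv h1
    have e1 : ‖v + 1‖ ^ 2 + ‖v - 1‖ ^ 2 = 2 * (‖v‖ ^ 2 + ‖(1 : ℂ)‖ ^ 2) :=
      parallelogram_law_with_norm ℝ v 1
    rw [hv, norm_one] at e1
    have e2 : 3 / 2 ≤ ‖v + 1‖ := by
      by_contra hh
      push Not at hh
      nlinarith [norm_nonneg (v + 1), norm_nonneg (v - 1)]
    have e3 : v ^ 2 - 1 = (v + 1) * (v - 1) := by ring
    rw [e3, norm_mul]
    exact mul_le_mul_of_nonneg_right e2 (norm_nonneg _)
  have grow : ∀ k : ℕ, (3 / 2 : ℝ) ^ k * ‖(z : ℂ) - 1‖ ≤ ‖(z : ℂ) ^ (2 ^ k) - 1‖ := by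
    intro k
    induction k with
    | zero => simp
    | succ k ih =>
      have h1 := key ((z : ℂ) ^ (2 ^ k)) (by rw [norm_pow, Circle.norm_coe, one_pow]) (h _)
      rw [← pow_mul, ← pow_succ] at h1
      calc (3 / 2 : ℝ) ^ (k + 1) * ‖(z : ℂ) - 1‖ = 3 / 2 * ((3 / 2 : ℝ) ^ k * ‖(z : ℂ) - 1‖) := by
            ring
        _ ≤ 3 / 2 * ‖(z : ℂ) ^ (2 ^ k) - 1‖ := mul_le_mul_of_nonneg_left ih (by norm_num)
        _ ≤ _ := h1
  obtain ⟨k, hk⟩ := pow_unbounded_of_one_lt (1 / ‖(z : ℂ) - 1‖) (show (1 : ℝ) < 3 / 2 by norm_num)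
  have h1 := grow k
  have h2 := h (2 ^ k)
  rw [div_lt_iff₀ hpos] at hk
  linarith

variable {G : Type u} [Group G] [TopologicalSpace G] [IsTopologicalGroup G]

/-- uniformity along the compact quotient -/
theorem tube {Γ : Subgroup G} [CompactSpace (G ⧸ Γ)] {T : Set (G × G)} (hT : IsOpen T)
    (h1 : ∀ x, ((1 : G), x) ∈ T) (Sx : Set G)
    (hinv : ∀ n ∈ Sx, ∀ x, ∀ γ ∈ Γ, (n, x) ∈ T → (n, x * γ) ∈ T) :
    ∃ O ∈ 𝓝 (1 : G), ∀ n ∈ O, n ∈ Sx → ∀ x, (n, x) ∈ T := by
  have hch : ∀ x : G, ∃ O U : Set G, IsOpen O ∧ IsOpen U ∧ (1 : G) ∈ O ∧ x ∈ U ∧ O ×ˢ U ⊆ T := by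
    intro x
    exact isOpen_prod_iff.mp hT 1 x (h1 x)
  choose O U hO hU h1O hxU hsub using hch
  have hopen : ∀ x, IsOpen ((QuotientGroup.mk : G → G ⧸ Γ) '' (U x)) := fun x =>
    QuotientGroup.isOpenMap_coe _ (hU x)
  have hcov : (univ : Set (G ⧸ Γ)) ⊆ ⋃ x, (QuotientGroup.mk : G → G ⧸ Γ) '' (U x) := by
    intro q _
    obtain ⟨x, rfl⟩ := QuotientGroup.mk_surjective q
    exact mem_iUnion.mpr ⟨x, x, hxU x, rfl⟩
  obtain ⟨t, ht⟩ := isCompact_univ.elim_finite_subcover _ hopen hcov
  refine ⟨⋂ x ∈ t, O x, (Filter.biInter_finset_mem t).mpr (fun x _ => (hO x).mem_nhds (h1O x)), ?_⟩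
  intro n hn hnS x
  obtain ⟨i, hi⟩ := mem_iUnion.mp (ht (mem_univ (QuotientGroup.mk x : G ⧸ Γ)))
  obtain ⟨hit, v, hv, hvx⟩ := mem_iUnion.mp hi
  have hγ : v⁻¹ * x ∈ Γ := QuotientGroup.eq.mp hvx
  have hm : (n, v) ∈ T := hsub i ⟨mem_iInter₂.mp hn i hit, hv⟩
  have := hinv n hnS v _ hγ hm
  rwa [mul_inv_cancel_left] at this

/-- rigidity of bimultiplicative maps -/
theorem rig {Γ : Subgroup G} [CompactSpace (G ⧸ Γ)] {c : G → G → Circle}
    (hc : Continuous (fun p : G × G => c p.1 p.2))
    (hl : ∀ g g' x, c (g * g') x = c g x * c g' x) (hr : ∀ g x x', c g (x * x') = c g x * c g x')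
    (hΓ : ∀ g, ∀ γ ∈ Γ, c g γ = 1) {a : G} (ha : ∀ x, c a x = 1)
    (hgen : ∀ R : Subgroup G, IsOpen (R : Set G) → a ∈ R → R = ⊤) : ∀ g x, c g x = 1 := by
  have hone : ∀ x, c 1 x = 1 := by
    intro x
    have := hl 1 1 x
    rw [mul_one] at this
    exact (mul_eq_left.mp this.symm)
  have honer : ∀ g, c g 1 = 1 := by
    intro g
    have := hr g 1 1
    rw [mul_one] at this
    exact (mul_eq_left.mp this.symm)
  let R : Subgroup G :=
    { carrier := {g | ∀ x, c g x = 1}
      one_mem' := hone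
      mul_mem' := by
        intro g g' h h' x
        rw [hl, h x, h' x, mul_one]
      inv_mem' := by
        intro g h x
        have := hl g g⁻¹ x
        rw [mul_inv_cancel, hone, h x, one_mul] at this
        exact this.symm }
  have hT : IsOpen {p : G × G | ‖(c p.1 p.2 : ℂ) - 1‖ < 1} := by
    apply isOpen_lt _ continuous_const
    exact ((continuous_subtype_val.comp hc).sub continuous_const).norm
  obtain ⟨O, hO, hOT⟩ := tube (Γ := Γ) hT (by intro x; simp [hone x]) univ (by
    intro n _ x γ hγ h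
    simp only [mem_ofPred_eq] at h ⊢
    rwa [hr, hΓ n γ hγ, mul_one])
  have hOR : O ⊆ (R : Set G) := by
    intro g hg x
    have hpow : ∀ n : ℕ, c g (x ^ n) = c g x ^ n := by
      intro n
      induction n with
      | zero => simp [honer g]
      | succ n ih => rw [pow_succ, hr, ih, pow_succ]
    apply circle_small
    intro n
    have := hOT g hg (mem_univ _) (x ^ n)
    simp only [mem_ofPred_eq] at this
    rwa [hpow, Circle.coe_pow] at this
  have hRo : IsOpen (R : Set G) := R.isOpen_of_mem_nhds (mem_of_superset hO hOR)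
  have hRtop := hgen R hRo ha
  intro g x
  have : g ∈ R := by rw [hRtop]; trivial
  exact this x

/-! ### Commutator calculus -/

/-- the lower central series of `G`, `D 0 = G` -/
abbrev D (G : Type u) [Group G] (n : ℕ) : Subgroup G := (⊤ : Subgroup G).lowerCentralSeries n

section Alg

variable {G : Type u} [Group G]

theorem comm_right {x : G} {j : ℕ} (hx : x ∈ D G j) (g : G) : ⁅x, g⁆ ∈ D G (j + 1) :=
  Subgroup.commutator_mem_commutator hx (Subgroup.mem_top g)

theorem comm_left {x : G} {j : ℕ} (hx : x ∈ D G j) (g : G) : ⁅g, x⁆ ∈ D G (j + 1) := by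
  have := (D G (j + 1)).inv_mem (comm_right hx g)
  rwa [commutatorElement_inv] at this

theorem D_succ_le (j : ℕ) : D G (j + 1) ≤ D G j := Subgroup.lowerCentralSeries_antitone _ (Nat.le_succ j)

/-- `f` is multiplicative on `D j` and trivial on `D (j+1)` -/
def Hm (j : ℕ) (f : G → Circle) : Prop :=
  (∀ x ∈ D G j, ∀ y ∈ D G j, f (x * y) = f x * f y) ∧ ∀ x ∈ D G (j + 1), f x = 1

theorem Hm.one {j : ℕ} {f : G → Circle} (h : Hm j f) : f 1 = 1 := by
  have := h.1 1 (D G j).one_mem 1 (D G j).one_mem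
  rw [mul_one] at this
  exact (mul_eq_left.mp this.symm)

theorem Hm.inv {j : ℕ} {f : G → Circle} (h : Hm j f) {x : G} (hx : x ∈ D G j) :
    f x⁻¹ = (f x)⁻¹ := by
  have := h.1 x hx x⁻¹ ((D G j).inv_mem hx)
  rw [mul_inv_cancel, h.one] at this
  exact (inv_eq_of_mul_eq_one_right this.symm).symm

theorem Hm.conj {j : ℕ} {f : G → Circle} (h : Hm j f) {z : G} (hz : z ∈ D G j) (g : G) :
    f (g * z * g⁻¹) = f z := by
  have e : g * z * g⁻¹ = ⁅g, z⁆ * z := by
    rw [commutatorElement_def]; group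
  have h1 := comm_left hz g
  rw [e, h.1 _ (D_succ_le j h1) _ hz, h.2 _ h1, one_mul]

theorem mem_conj {j : ℕ} {z : G} (hz : z ∈ D G j) (g : G) : g * z * g⁻¹ ∈ D G j := by
  have e : g * z * g⁻¹ = ⁅g, z⁆ * z := by
    rw [commutatorElement_def]; group
  rw [e]
  exact (D G j).mul_mem (D_succ_le j (comm_left hz g)) hz

theorem Hm.slotL {j : ℕ} {f : G → Circle} (h : Hm (j + 1) f) (g : G) :
    Hm j (fun x : G => f ⁅x, g⁆) := by
  constructor
  · intro x hx y hy
    have e : ⁅x * y, g⁆ = (x * ⁅y, g⁆ * x⁻¹) * ⁅x, g⁆ := by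
      simp only [commutatorElement_def]; group
    show f ⁅x * y, g⁆ = f ⁅x, g⁆ * f ⁅y, g⁆
    rw [e, h.1 _ (mem_conj (comm_right hy g) x) _ (comm_right hx g),
      h.conj (comm_right hy g) x, mul_comm]
  · intro x hx
    exact h.2 _ (comm_right hx g)

theorem Hm.slotR {j : ℕ} {f : G → Circle} (h : Hm (j + 1) f) (g : G) :
    Hm j (fun x : G => f ⁅g, x⁆) := by
  constructor
  · intro x hx y hy
    have e : ⁅g, x * y⁆ = ⁅g, x⁆ * (x * ⁅g, y⁆ * x⁻¹) := by
      simp only [commutatorElement_def]; group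
    show f ⁅g, x * y⁆ = f ⁅g, x⁆ * f ⁅g, y⁆
    rw [e, h.1 _ (comm_left hx g) _ (mem_conj (comm_left hy g) x),
      h.conj (comm_left hy g) x]
  · intro x hx
    exact h.2 _ (comm_left hx g)

theorem Hm.freeR {j : ℕ} {f : G → Circle} (h : Hm (j + 1) f) {x : G} (hx : x ∈ D G j) (g g' : G) :
    f ⁅x, g * g'⁆ = f ⁅x, g⁆ * f ⁅x, g'⁆ := by
  have e : ⁅x, g * g'⁆ = ⁅x, g⁆ * (g * ⁅x, g'⁆ * g⁻¹) := by
    simp only [commutatorElement_def]; group
  rw [e, h.1 _ (comm_right hx g) _ (mem_conj (comm_right hx g') g), h.conj (comm_right hx g') g]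

theorem Hm.freeL {j : ℕ} {f : G → Circle} (h : Hm (j + 1) f) {x : G} (hx : x ∈ D G j) (g g' : G) :
    f ⁅g * g', x⁆ = f ⁅g, x⁆ * f ⁅g', x⁆ := by
  have e : ⁅g * g', x⁆ = (g * ⁅g', x⁆ * g⁻¹) * ⁅g, x⁆ := by
    simp only [commutatorElement_def]; group
  rw [e, h.1 _ (mem_conj (comm_left hx g') g) _ (comm_left hx g), h.conj (comm_left hx g') g,
    mul_comm]

theorem Hm.gen_one {j : ℕ} {f : G → Circle} (h : Hm (j + 1) f)
    (h1 : ∀ x ∈ D G j, ∀ y : G, f ⁅x, y⁆ = 1) : ∀ x ∈ D G (j + 1), f x = 1 := by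
  have hcl : D G (j + 1) = Subgroup.closure {x | ∃ p ∈ D G j, ∃ q ∈ (⊤ : Subgroup G), ⁅p, q⁆ = x} :=
    rfl
  have key : ∀ x ∈ Subgroup.closure {x | ∃ p ∈ D G j, ∃ q ∈ (⊤ : Subgroup G), ⁅p, q⁆ = x},
      f x = 1 := by
    intro x hx
    induction hx using Subgroup.closure_induction with
    | mem x hx => obtain ⟨p, hp, q, -, rfl⟩ := hx; exact h1 p hp q
    | one => exact h.one
    | mul x y hx hy ihx ihy =>
      rw [← hcl] at hx hy
      rw [h.1 x hx y hy, ihx, ihy, mul_one]
    | inv x hx ih =>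
      rw [← hcl] at hx
      rw [h.inv hx, ih, inv_one]
  exact key

/-- iterated commutators -/
def mc : List G → G → G
  | [], x => x
  | g :: l, x => mc l ⁅x, g⁆

theorem mc_mem (l : List G) : ∀ {i : ℕ} {x : G}, x ∈ D G i → mc l x ∈ D G (i + l.length) := by
  induction l with
  | nil => intro i x hx; exact hx
  | cons g l ih =>
    intro i x hx
    have := ih (comm_right hx g)
    have e : i + (g :: l).length = i + 1 + l.length := by simp; ring
    rw [e]; exact this

theorem mc_one (l : List G) : mc l (1 : G) = 1 := by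
  induction l with
  | nil => rfl
  | cons g l ih =>
    show mc l ⁅1, g⁆ = 1
    rw [commutatorElement_one_left, ih]

theorem mc_cont [TopologicalSpace G] [IsTopologicalGroup G] (l : List G) :
    Continuous (mc l) := by
  induction l with
  | nil => exact continuous_id
  | cons g l ih =>
    have : Continuous (fun x : G => ⁅x, g⁆) := by
      simp only [commutatorElement_def]; fun_prop
    exact ih.comp this

/-- `Λ_{g,l}` -/
def La (χ : G → Circle) (g : G) (l : List G) (x : G) : Circle := χ ⁅g, mc l x⁆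

theorem La_Hm {χ : G → Circle} {k : ℕ} (hχ : Hm k χ) (g : G) (l : List G) :
    ∀ {i : ℕ}, i + l.length + 1 = k → Hm i (La χ g l) := by
  induction l with
  | nil =>
    intro i hi
    subst hi
    exact hχ.slotR g
  | cons g' l ih =>
    intro i hi
    have := ih (i := i + 1) (by simp at hi; omega)
    exact this.slotL g'

theorem La_left {χ : G → Circle} {k : ℕ} (hχ : Hm k χ) (g g' : G) (l : List G) {i : ℕ} {x : G}
    (hx : x ∈ D G i) (hi : i + l.length + 1 = k) :
    La χ (g * g') l x = La χ g l x * La χ g' l x := by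
  subst hi
  exact hχ.freeL (mc_mem l hx) g g'

end Alg

section Main

variable {G : Type u} [Group G] [TopologicalSpace G] [IsTopologicalGroup G]

theorem La_cont {χ : G → Circle} {k : ℕ} (hc : ContinuousOn χ (D G k : Set G)) (l : List G)
    (hl : l.length + 1 = k) : Continuous (fun p : G × G => La χ p.1 l p.2) := by
  have h1 : Continuous (fun p : G × G => ⁅p.1, mc l p.2⁆) := by
    have := mc_cont l
    simp only [commutatorElement_def]
    fun_prop
  refine hc.comp_continuous h1 ?_
  intro p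
  have : mc l p.2 ∈ D G l.length := by
    have := mc_mem l (i := 0) (x := p.2) (Subgroup.mem_top p.2)
    simpa using this
  have h2 := comm_left this p.1
  rw [hl] at h2
  exact h2

theorem La_cont' {χ : G → Circle} {k : ℕ} (hc : ContinuousOn χ (D G k : Set G)) (l : List G)
    {i : ℕ} {h : G} (hh : h ∈ D G i) (hl : i + 1 + l.length + 1 = k) :
    Continuous (fun p : G × G => La χ p.1 l ⁅h, p.2⁆) := by
  have h1 : Continuous (fun p : G × G => ⁅p.1, mc l ⁅h, p.2⁆⁆) := by
    have := mc_cont l
    simp only [commutatorElement_def]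
    fun_prop
  refine hc.comp_continuous h1 ?_
  intro p
  have h2 := comm_left (mc_mem l (comm_right hh p.2)) p.1
  rw [hl] at h2
  exact h2

theorem cos_tendsto_one : Tendsto (fun n : ℕ => Real.cos (Real.pi / n)) atTop (𝓝 1) := by
  have h1 : Tendsto (fun n : ℕ => Real.pi / n) atTop (𝓝 0) := tendsto_const_div_atTop_nhds_zero_nat _
  have h2 := (Real.continuous_cos.tendsto 0).comp h1
  rw [Real.cos_zero] at h2
  exact h2

theorem circle_pow_neg_one {z : Circle} {n : ℕ} (hn : 0 < n)
    (h : (z : ℂ).re = Real.cos (Real.pi / n)) : (z : ℂ) ^ n = -1 := by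
  have hn' : (n : ℂ) ≠ 0 := by exact_mod_cast hn.ne'
  have hsq : (z : ℂ).re ^ 2 + (z : ℂ).im ^ 2 = 1 := by
    have h1 := Complex.normSq_add_mul_I (z : ℂ).re (z : ℂ).im
    have h2 : Complex.normSq (z : ℂ) = 1 := Circle.normSq_coe z
    rw [Complex.re_add_im] at h1
    rw [← h1, h2]
  have him : (z : ℂ).im ^ 2 = Real.sin (Real.pi / n) ^ 2 := by
    have := Real.sin_sq_add_cos_sq (Real.pi / n)
    rw [h] at hsq
    linarith
  have hcases := sq_eq_sq_iff_eq_or_eq_neg.mp him
  have hexp : ∀ s : ℝ, Complex.exp ((s : ℂ) * Complex.I) = (Real.cos s : ℂ) + Real.sin s * Complex.I := by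
    intro s
    rw [Complex.exp_mul_I, Complex.ofReal_cos, Complex.ofReal_sin]
  rcases hcases with hc | hc
  · have hz : (z : ℂ) = Complex.exp (((Real.pi / n : ℝ) : ℂ) * Complex.I) := by
      rw [hexp]
      conv_lhs => rw [← Complex.re_add_im (z : ℂ)]
      rw [h, hc]
    rw [hz, ← Complex.exp_nat_mul]
    have : (n : ℂ) * (((Real.pi / n : ℝ) : ℂ) * Complex.I) = Real.pi * Complex.I := by
      push_cast
      field_simp
    rw [this, Complex.exp_pi_mul_I]
  · have hz : (z : ℂ) = Complex.exp (((-(Real.pi / n) : ℝ) : ℂ) * Complex.I) := by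
      rw [hexp]
      conv_lhs => rw [← Complex.re_add_im (z : ℂ)]
      rw [h, hc, Real.cos_neg, Real.sin_neg]
    rw [hz, ← Complex.exp_nat_mul]
    have : (n : ℂ) * (((-(Real.pi / n) : ℝ) : ℂ) * Complex.I) = -(Real.pi * Complex.I) := by
      push_cast
      field_simp
    rw [this, Complex.exp_neg, Complex.exp_pi_mul_I]
    norm_num

variable {Γ : Subgroup G}

/-- **Claim B** -/
theorem claimB [CompactSpace (G ⧸ Γ)] [LocallyConnectedSpace G] {a : G}
    (hgen : ∀ R : Subgroup G, IsOpen (R : Set G) → a ∈ R → R = ⊤)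
    (hdense : Dense {g : G | ∃ n : ℕ, ∃ γ ∈ Γ, g = a ^ n * γ})
    {k : ℕ} {χ : G → Circle} (hχ : Hm (k + 1) χ) (hχΓ : ∀ γ ∈ Γ, γ ∈ D G (k + 1) → χ γ = 1)
    (hχc : ContinuousOn χ (D G (k + 1) : Set G)) (hne : ∃ x ∈ D G (k + 1), χ x ≠ 1)
    {O : Set G} (hO : O ∈ 𝓝 (1 : G)) :
    ∃ n0 : ℕ, ∀ n ≥ n0, ∃ h ∈ O, h ∈ D G k ∧ (χ ⁅a, h⁆ : ℂ) ^ n = -1 := by
  by_cases hA : ∃ l : List G, l.length + 1 = k + 1 ∧ ¬ ∀ᶠ u in 𝓝 (1 : G), La χ a l u = 1
  · obtain ⟨l, hl, hnot⟩ := hA
    have hpc : Continuous (La χ a l) := by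
      have := (La_cont hχc l hl).comp (Continuous.prodMk_right a)
      exact this
    have hHm : Hm 0 (La χ a l) := La_Hm hχ a l (by omega)
    have hO' : mc l ⁻¹' O ∈ 𝓝 (1 : G) := by
      apply (mc_cont l).continuousAt.preimage_mem_nhds
      rwa [mc_one]
    obtain ⟨V, hVsub, hVo, h1V, hVc⟩ :=
      locallyConnectedSpace_iff_subsets_isOpen_isConnected.mp inferInstance 1 _ hO'
    obtain ⟨u1, hu1V, hu1⟩ : ∃ u1 ∈ V, La χ a l u1 ≠ 1 := by
      by_contra hcon
      push Not at hcon
      exact hnot (mem_of_superset (hVo.mem_nhds h1V) hcon)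
    set f : G → ℝ := fun u => (La χ a l u : ℂ).re with hf
    have hfc : Continuous f := Complex.continuous_re.comp (continuous_subtype_val.comp hpc)
    have hf1 : f 1 = 1 := by
      rw [hf]; simp [hHm.one]
    have hlt : f u1 < 1 := by
      rcases lt_or_eq_of_le (show f u1 ≤ 1 from by
        have := Complex.re_le_norm (La χ a l u1 : ℂ)
        rwa [Circle.norm_coe] at this) with h | h
      · exact h
      · exfalso
        apply hu1
        have hsq : (La χ a l u1 : ℂ).re ^ 2 + (La χ a l u1 : ℂ).im ^ 2 = 1 := by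
          have h1 := Complex.normSq_add_mul_I (La χ a l u1 : ℂ).re (La χ a l u1 : ℂ).im
          have h2 : Complex.normSq (La χ a l u1 : ℂ) = 1 := Circle.normSq_coe _
          rw [Complex.re_add_im] at h1
          rw [← h1, h2]
        have hre : (La χ a l u1 : ℂ).re = 1 := h
        have him : (La χ a l u1 : ℂ).im = 0 := by
          rw [hre] at hsq
          nlinarith
        apply Circle.ext
        rw [Circle.coe_one]
        apply Complex.ext
        · rw [hre]; rfl
        · rw [him]; rfl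
    obtain ⟨n1, hn1⟩ := eventually_atTop.mp (cos_tendsto_one.eventually (lt_mem_nhds hlt))
    refine ⟨max n1 1, fun n hn => ?_⟩
    have hnpos : 0 < n := lt_of_lt_of_le (by norm_num) ((le_max_right _ _).trans hn)
    have hcos := hn1 n ((le_max_left _ _).trans hn)
    obtain ⟨u, huV, hu⟩ := hVc.isPreconnected.intermediate_value hu1V h1V hfc.continuousOn
      (show Real.cos (Real.pi / n) ∈ Icc (f u1) (f 1) from
        ⟨hcos.le, by rw [hf1]; exact Real.cos_le_one _⟩)
    refine ⟨mc l u, hVsub huV, ?_, ?_⟩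
    · have := mc_mem l (i := 0) (x := u) (Subgroup.mem_top u)
      have e : 0 + l.length = k := by omega
      rwa [e] at this
    · exact circle_pow_neg_one (z := La χ a l u) hnpos hu
  · exfalso
    push Not at hA
    -- kernels are open
    have hker : ∀ l : List G, l.length + 1 = k + 1 → La χ a l a = 1 → ∀ u, La χ a l u = 1 := by
      intro l hl ha u
      have hHm : Hm 0 (La χ a l) := La_Hm hχ a l (by omega)
      let R : Subgroup G :=
        { carrier := {u | La χ a l u = 1}
          one_mem' := hHm.one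
          mul_mem' := by
            intro x y hx hy
            show La χ a l (x * y) = 1
            rw [hHm.1 x (Subgroup.mem_top x) y (Subgroup.mem_top y)]
            rw [show La χ a l x = 1 from hx, show La χ a l y = 1 from hy, mul_one]
          inv_mem' := by
            intro x hx
            show La χ a l x⁻¹ = 1
            rw [hHm.inv (Subgroup.mem_top x), show La χ a l x = 1 from hx, inv_one] }
      have hRo : IsOpen (R : Set G) := R.isOpen_of_mem_nhds (g := 1) (hA l hl)
      have : u ∈ R := by rw [hgen R hRo ha]; trivial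
      exact this
    have hall : ∀ l : List G, l.length + 1 = k + 1 → ∀ u, La χ a l u = 1 := by
      intro l hl
      apply hker l hl
      rcases l with _ | ⟨g', l'⟩
      · show χ ⁅a, a⁆ = 1
        rw [commutatorElement_self]; exact hχ.one
      · have hl' : 1 + l'.length + 1 = k + 1 := by simp at hl; omega
        have hHm1 : Hm 1 (La χ a l') := La_Hm hχ a l' hl'
        -- the homomorphism g' ↦ La χ a l' ⁅a, g'⁆
        let R : Subgroup G :=
          { carrier := {u | La χ a l' ⁅a, u⁆ = 1}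
            one_mem' := by
              show La χ a l' ⁅a, 1⁆ = 1
              rw [commutatorElement_one_right]; exact hHm1.one
            mul_mem' := by
              intro x y hx hy
              show La χ a l' ⁅a, x * y⁆ = 1
              rw [hHm1.freeR (Subgroup.mem_top a)]
              rw [show La χ a l' ⁅a, x⁆ = 1 from hx, show La χ a l' ⁅a, y⁆ = 1 from hy, mul_one]
            inv_mem' := by
              intro x hx
              have h1 := hHm1.freeR (j := 0) (Subgroup.mem_top a) x x⁻¹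
              rw [mul_inv_cancel, commutatorElement_one_right, hHm1.one,
                show La χ a l' ⁅a, x⁆ = 1 from hx, one_mul] at h1
              exact h1.symm }
        have hRo : IsOpen (R : Set G) := by
          apply R.isOpen_of_mem_nhds (g := 1)
          refine mem_of_superset (hA (a :: l') (by simp at hl ⊢; omega)) ?_
          intro u hu
          have h1 : La χ a l' ⁅u, a⁆ = 1 := hu
          show La χ a l' ⁅a, u⁆ = 1
          rw [← commutatorElement_inv, hHm1.inv (comm_right (Subgroup.mem_top u) a), h1, inv_one]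
        have : g' ∈ R := by
          rw [hgen R hRo (by
            show La χ a l' ⁅a, a⁆ = 1
            rw [commutatorElement_self]; exact hHm1.one)]
          trivial
        exact this
    -- case B for all levels
    have hB : ∀ (i : ℕ) (l : List G), i + l.length + 1 = k + 1 → ∀ x ∈ D G i, La χ a l x = 1 := by
      intro i
      induction i with
      | zero => intro l hl x _; exact hall l (by omega) x
      | succ i ih =>
        intro l hl
        apply (La_Hm hχ a l hl).gen_one
        intro x hx y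
        exact ih (y :: l) (by simp; omega) x hx
    -- trivial on Γ
    have hS : ∀ (l : List G) (i : ℕ), i + l.length + 1 = k + 1 → ∀ h ∈ Γ, h ∈ D G i →
        ∀ g, La χ g l h = 1 := by
      intro l
      induction l with
      | nil =>
        intro i hi h hhΓ hhD g
        have hik : i = k := by simpa using hi
        subst hik
        have hcl : IsClosed {g : G | La χ g [] h = 1} := by
          apply isClosed_eq _ continuous_const
          have h1 : Continuous (fun g : G => ⁅g, h⁆) := by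
            simp only [commutatorElement_def]; fun_prop
          exact hχc.comp_continuous h1 (fun g => comm_left hhD g)
        have hsub : {g : G | ∃ n : ℕ, ∃ γ ∈ Γ, g = a ^ n * γ} ⊆ {g : G | La χ g [] h = 1} := by
          rintro g ⟨n, γ, hγ, rfl⟩
          show La χ (a ^ n * γ) [] h = 1
          rw [La_left hχ _ _ [] hhD hi]
          have h1 : La χ γ [] h = 1 := by
            show χ ⁅γ, h⁆ = 1
            apply hχΓ _ _ (comm_left hhD γ)
            rw [commutatorElement_def]
            exact Γ.mul_mem (Γ.mul_mem (Γ.mul_mem hγ hhΓ) (Γ.inv_mem hγ)) (Γ.inv_mem hhΓ)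
          have h2 : ∀ n : ℕ, La χ (a ^ n) [] h = 1 := by
            intro n
            induction n with
            | zero =>
              show χ ⁅a ^ 0, h⁆ = 1
              rw [pow_zero, commutatorElement_one_left]; exact hχ.one
            | succ n ih =>
              rw [pow_succ, La_left hχ _ _ [] hhD hi, ih, hB _ [] hi h hhD, mul_one]
          rw [h1, h2, mul_one]
        have := hcl.closure_subset_iff.mpr hsub (hdense g)
        exact this
      | cons g' l' ih =>
        intro i hi h hhΓ hhD g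
        have hi' : i + 1 + l'.length + 1 = k + 1 := by simp at hi; omega
        have := rig (Γ := Γ) (c := fun g x => La χ g l' ⁅h, x⁆) (La_cont' hχc l' hhD hi')
          (fun g1 g2 x => La_left hχ g1 g2 l' (comm_right hhD x) hi')
          (fun g x x' => (La_Hm hχ g l' hi').freeR hhD x x')
          (fun g γ hγ => ih (i + 1) hi' ⁅h, γ⁆ (by
            rw [commutatorElement_def]
            exact Γ.mul_mem (Γ.mul_mem (Γ.mul_mem hhΓ hγ) (Γ.inv_mem hhΓ)) (Γ.inv_mem hγ))
            (comm_right hhD γ) g) (a := a)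
          (fun x => hB (i + 1) l' hi' _ (comm_right hhD x)) hgen g g'
        exact this
    -- everything is trivial
    have hT0 : ∀ l : List G, l.length + 1 = k + 1 → ∀ g x, La χ g l x = 1 := by
      intro l hl
      have hl0 : 0 + l.length + 1 = k + 1 := by omega
      exact rig (Γ := Γ) (c := fun g x => La χ g l x) (La_cont hχc l hl)
        (fun g1 g2 x => La_left hχ g1 g2 l (i := 0) (Subgroup.mem_top x) hl0)
        (fun g x x' => (La_Hm hχ g l hl0).1 x (Subgroup.mem_top x) x' (Subgroup.mem_top x'))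
        (fun g γ hγ => hS l 0 hl0 γ hγ (Subgroup.mem_top γ) g) (a := a)
        (fun x => hall l hl x) hgen
    have hT : ∀ (i : ℕ) (l : List G), i + l.length + 1 = k + 1 → ∀ g, ∀ x ∈ D G i,
        La χ g l x = 1 := by
      intro i
      induction i with
      | zero => intro l hl g x _; exact hT0 l (by omega) g x
      | succ i ih =>
        intro l hl g
        apply (La_Hm hχ g l hl).gen_one
        intro x hx y
        exact ih (y :: l) (by simp; omega) g x hx
    obtain ⟨x, hx, hx1⟩ := hne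
    apply hx1
    refine hχ.gen_one ?_ x hx
    intro x hx y
    have h1 : χ ⁅y, x⁆ = 1 := hT k [] (by simp) y x hx
    rw [← commutatorElement_inv, hχ.inv (comm_left hx y), h1, inv_one]

end Main

end Pool.Agent.R783.Nil
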