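import Pool.Agent.R783.Nil.Fib

/-!
# Small neighbourhoods spread over the fibres
-/

namespace Pool.Agent.R783.Nil

open Topology Set Filter
open scoped commutatorElement Pointwise

universe u

variable {G : Type u} [Group G] [TopologicalSpace G] [IsTopologicalGroup G]

theorem split3 {W : Set G} (hW : W ∈ 𝓝 (1 : G)) :
    ∃ W1 ∈ 𝓝 (1 : G), ∀ p ∈ W1, ∀ q ∈ W1, ∀ r ∈ W1, (p * q)⁻¹ * r ∈ W := by
  have hc : Continuous (fun x : G × (G × G) => (x.1 * x.2.1)⁻¹ * x.2.2) := by fun_prop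
  have h1 : (fun x : G × (G × G) => (x.1 * x.2.1)⁻¹ * x.2.2) ⁻¹' W ∈ 𝓝 ((1 : G), ((1 : G), (1 : G))) := by
    apply hc.continuousAt.preimage_mem_nhds
    simpa using hW
  rw [mem_nhds_prod_iff] at h1
  obtain ⟨A, hA, B, hB, hAB⟩ := h1
  rw [mem_nhds_prod_iff] at hB
  obtain ⟨B1, hB1, B2, hB2, hB12⟩ := hB
  refine ⟨A ∩ (B1 ∩ B2), inter_mem hA (inter_mem hB1 hB2), ?_⟩
  intro p hp q hq r hr
  exact hAB (mk_mem_prod hp.1 (hB12 (mk_mem_prod hq.2.1 hr.2.2)))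

theorem split2 {W : Set G} (hW : W ∈ 𝓝 (1 : G)) :
    ∃ W1 ∈ 𝓝 (1 : G), ∀ p ∈ W1, ∀ q ∈ W1, p * q ∈ W := by
  obtain ⟨W1, hW1, h⟩ := exists_open_nhds_one_mul_subset hW
  refine ⟨W1, hW1.mem_nhds h.1, ?_⟩
  intro p hp q hq
  exact h.2 (mul_mem_mul hp hq)

theorem list_small (r : ℕ) : ∀ {U : Set G}, U ∈ 𝓝 (1 : G) → ∃ U' ∈ 𝓝 (1 : G),
    ∀ l : List G, l.length ≤ r → (∀ x ∈ l, x ∈ U') → l.prod ∈ U := by
  induction r with
  | zero =>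
    intro U hU
    refine ⟨U, hU, fun l hl _ => ?_⟩
    have : l = [] := List.eq_nil_of_length_eq_zero (by omega)
    rw [this]
    exact mem_of_mem_nhds hU
  | succ r ih =>
    intro U hU
    obtain ⟨U1, hU1, h1⟩ := split2 hU
    obtain ⟨U2, hU2, h2⟩ := ih hU1
    refine ⟨U1 ∩ U2, inter_mem hU1 hU2, ?_⟩
    intro l hl hx
    rcases l with _ | ⟨x, l⟩
    · exact mem_of_mem_nhds hU
    · rw [List.prod_cons]
      apply h1 _ (hx x (by simp)).1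
      apply h2 l (by simpa using hl)
      intro y hy
      exact (hx y (by simp [hy])).2

theorem central {j : ℕ} {z : G} (hz : z ∈ D G j) (x : G) : ∃ d ∈ D G (j + 1), z * x = x * z * d := by
  refine ⟨(x * z)⁻¹ * (z * x), ?_, by group⟩
  have e : (x * z)⁻¹ * (z * x) = ⁅z⁻¹, x⁻¹⁆ := by rw [commutatorElement_def]; group
  rw [e]
  exact comm_right ((D G j).inv_mem hz) _

theorem comm_pow {j : ℕ} {h : G} (hh : h ∈ D G j) (a : G) (n : ℕ) :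
    ∃ d ∈ D G (j + 2), ⁅a ^ n, h⁆ = ⁅a, h⁆ ^ n * d := by
  induction n with
  | zero => exact ⟨1, (D G (j + 2)).one_mem, by simp⟩
  | succ n ih =>
    obtain ⟨d, hd, e⟩ := ih
    -- ⁅a^n * a, h⁆ = a^n ⁅a,h⁆ a^-n ⁅a^n,h⁆
    have e1 : ⁅a ^ (n + 1), h⁆ = (a ^ n * ⁅a, h⁆ * (a ^ n)⁻¹) * ⁅a ^ n, h⁆ := by
      simp only [commutatorElement_def]; group
    have hz := comm_left hh a
    have e2 : a ^ n * ⁅a, h⁆ * (a ^ n)⁻¹ = ⁅a, h⁆ * ⁅(⁅a, h⁆)⁻¹, a ^ n⁆ := by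
      simp only [commutatorElement_def]; group
    have hd1 : ⁅(⁅a, h⁆)⁻¹, a ^ n⁆ ∈ D G (j + 2) := comm_right ((D G (j + 1)).inv_mem hz) _
    refine ⟨((⁅a, h⁆ ^ n)⁻¹ * ⁅(⁅a, h⁆)⁻¹, a ^ n⁆ * ((⁅a, h⁆ ^ n)⁻¹)⁻¹) * d, ?_, ?_⟩
    · exact (D G (j + 2)).mul_mem (mem_conj hd1 _) hd
    · rw [e1, e2, e, pow_succ']
      group

theorem comm_list {j : ℕ} (g : G) : ∀ l : List G, (∀ h ∈ l, h ∈ D G j) →
    l.prod ∈ D G j ∧ ∃ d ∈ D G (j + 2), ⁅g, l.prod⁆ = (l.map (fun h => ⁅g, h⁆)).prod * d := by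
  intro l
  induction l with
  | nil => intro _; exact ⟨(D G j).one_mem, 1, (D G (j + 2)).one_mem, by simp⟩
  | cons h l ih =>
    intro hl
    obtain ⟨hp, d, hd, e⟩ := ih (fun x hx => hl x (by simp [hx]))
    have hh := hl h (by simp)
    refine ⟨by rw [List.prod_cons]; exact (D G j).mul_mem hh hp, ?_⟩
    -- ⁅g, h p⁆ = ⁅g,h⁆ * (h * ⁅g,p⁆ * h⁻¹)
    have e1 : ⁅g, h * l.prod⁆ = ⁅g, h⁆ * (h * ⁅g, l.prod⁆ * h⁻¹) := by
      simp only [commutatorElement_def]; group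
    have hz := comm_left hp g
    have e2 : h * ⁅g, l.prod⁆ * h⁻¹ = ⁅g, l.prod⁆ * ⁅(⁅g, l.prod⁆)⁻¹, h⁆ := by
      simp only [commutatorElement_def]; group
    refine ⟨d * ⁅(⁅g, l.prod⁆)⁻¹, h⁆, (D G (j + 2)).mul_mem hd
      (comm_right ((D G (j + 1)).inv_mem hz) _), ?_⟩
    rw [List.prod_cons, List.map_cons, List.prod_cons, e1, e2]
    conv_lhs => rw [e]
    rw [e]
    group

theorem list_congr_mod {j : ℕ} {ι : Type u} (e f : ι → G) : ∀ l : List ι,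
    (∀ i ∈ l, ∃ d ∈ D G j, e i = f i * d) →
    ∃ d ∈ D G j, (l.map e).prod = (l.map f).prod * d := by
  intro l
  induction l with
  | nil => intro _; exact ⟨1, (D G j).one_mem, by simp⟩
  | cons i l ih =>
    intro hl
    obtain ⟨d, hd, h1⟩ := ih (fun x hx => hl x (by simp [hx]))
    obtain ⟨d', hd', h2⟩ := hl i (by simp)
    refine ⟨((l.map f).prod⁻¹ * d' * ((l.map f).prod⁻¹)⁻¹) * d,
      (D G j).mul_mem (mem_conj hd' _) hd, ?_⟩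
    rw [List.map_cons, List.map_cons, List.prod_cons, List.prod_cons, h1, h2]
    group

variable (Γ : Subgroup G)

/-- the images of small neighbourhoods are dense in the fibres of level `k` -/
def Fd (a : G) (k : ℕ) : Prop :=
  ∀ O ∈ 𝓝 (1 : G), ∀ W ∈ 𝓝 (1 : G), ∃ n0 : ℕ, ∀ n ≥ n0, ∀ g : G, ∀ κ ∈ Nk Γ k,
    ∃ o ∈ O, ∃ w ∈ W, ∃ γ ∈ Γ, w * (a ^ n * o * g) * γ = a ^ n * g * κ

theorem fd_top (hΓ : IsClosed (Γ : Set G)) {s : ℕ} (hs : D G s = ⊥) (a : G) : Fd Γ a s := by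
  intro O hO W hW
  refine ⟨0, fun n _ g κ hκ => ⟨1, mem_of_mem_nhds hO, 1, mem_of_mem_nhds hW, κ, ?_, by group⟩⟩
  unfold Nk at hκ
  rw [hs, bot_sup_eq] at hκ
  have : Γ.topologicalClosure ≤ Γ := Subgroup.topologicalClosure_minimal _ le_rfl hΓ
  exact this hκ

/-- right translation by small elements of `N k` is a small left translation modulo `N (k+1)` -/
theorem unif [CompactSpace (G ⧸ Γ)] (k : ℕ) {W : Set G} (hW : W ∈ 𝓝 (1 : G)) :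
    ∃ V ∈ 𝓝 (1 : G), ∀ n ∈ V, n ∈ Nk Γ k → ∀ x : G, ∃ w ∈ W, ∃ m ∈ Nk Γ (k + 1),
      x * n = w * x * m := by
  obtain ⟨W', hW'sub, hW'o, h1W'⟩ := mem_nhds_iff.mp hW
  set T : Set (G × G) := {p | ∃ m ∈ Nk Γ (k + 1), p.2 * p.1 * m⁻¹ * p.2⁻¹ ∈ W'} with hT
  have hTo : IsOpen T := by
    have : T = ⋃ m ∈ Nk Γ (k + 1), {p : G × G | p.2 * p.1 * m⁻¹ * p.2⁻¹ ∈ W'} := by
      ext p
      simp only [hT, mem_iUnion, exists_prop]
      rfl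
    rw [this]
    refine isOpen_biUnion (fun m _ => hW'o.preimage ?_)
    fun_prop
  obtain ⟨V, hV, hVT⟩ := tube (Γ := Γ) hTo
    (fun x => ⟨1, (Nk Γ (k + 1)).one_mem, by simpa using h1W'⟩) (Nk Γ k : Set G) (by
      rintro n hn x γ hγ ⟨m, hm, hmW⟩
      have hγN := Γ_le_Nk Γ (k + 1) hγ
      refine ⟨γ⁻¹ * m * (n⁻¹ * γ * n⁻¹⁻¹), ?_, ?_⟩
      · refine (Nk Γ (k + 1)).mul_mem ((Nk Γ (k + 1)).mul_mem ((Nk Γ (k + 1)).inv_mem hγN) hm) ?_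
        exact Nk_conj Γ k ((Nk Γ k).inv_mem hn) hγN
      · show (x * γ) * n * (γ⁻¹ * m * (n⁻¹ * γ * n⁻¹⁻¹))⁻¹ * (x * γ)⁻¹ ∈ W'
        have e : (x * γ) * n * (γ⁻¹ * m * (n⁻¹ * γ * n⁻¹⁻¹))⁻¹ * (x * γ)⁻¹ =
            x * n * m⁻¹ * x⁻¹ := by group
        rw [e]; exact hmW)
  refine ⟨V, hV, ?_⟩
  intro n hn hnN x
  obtain ⟨m, hm, hmW⟩ := hVT n hn hnN x
  exact ⟨_, hW'sub hmW, m, hm, by
    show x * n = (x * n * m⁻¹ * x⁻¹) * x * m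
    group⟩

variable {Γ}

/-- **The induction step.** -/
theorem fd_step [CompactSpace (G ⧸ Γ)] [LocallyConnectedSpace G] {a : G}
    (hgen : ∀ R : Subgroup G, IsOpen (R : Set G) → a ∈ R → R = ⊤)
    (hdense : Dense {g : G | ∃ n : ℕ, ∃ γ ∈ Γ, g = a ^ n * γ}) {k : ℕ}
    (hfd : Fd Γ a (k + 2)) : Fd Γ a (k + 1) := by
  intro O hO W hW
  obtain ⟨W1, hW1, hW1s⟩ := split3 hW
  obtain ⟨O1, hO1, hO1s⟩ := split2 hO
  obtain ⟨V, hV, hVu⟩ := unif Γ (k + 1) hW1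
  obtain ⟨ι, S, χ, hχ, hS⟩ := K1G Γ (k + 1) hV
  obtain ⟨O2, hO2, hO2s⟩ := list_small S.card (inter_mem hO1 hW1)
  obtain ⟨n1, hn1⟩ := hfd O1 hO1 W1 hW1
  have hB : ∀ i ∈ S, ∀ᶠ n : ℕ in atTop, ∃ h ∈ O2, h ∈ D G k ∧ (χ i ⁅a, h⁆ : ℂ) ^ n = -1 := by
    intro i hi
    obtain ⟨h1, h2, h3, h4⟩ := hχ i hi
    obtain ⟨n0, hn0⟩ := claimB hgen hdense h1 (fun γ hγ _ => h2 γ hγ) h3 h4 hO2
    exact eventually_atTop.mpr ⟨n0, hn0⟩
  have hBall := (Filter.eventually_all_finset S).mpr hB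
  obtain ⟨n2, hn2⟩ := eventually_atTop.mp hBall
  refine ⟨max n1 n2, fun n hn g κ hκ => ?_⟩
  have hn1' := hn1 n ((le_max_left _ _).trans hn)
  have hch : ∀ i : ι, ∃ h : G, i ∈ S → h ∈ O2 ∧ h ∈ D G k ∧ (χ i ⁅a, h⁆ : ℂ) ^ n = -1 := by
    intro i
    by_cases hi : i ∈ S
    · obtain ⟨h, h1, h2, h3⟩ := hn2 n ((le_max_right _ _).trans hn) i hi
      exact ⟨h, fun _ => ⟨h1, h2, h3⟩⟩
    · exact ⟨1, fun h => absurd h hi⟩
  choose h hh using hch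
  obtain ⟨T, hTS, v, hvV, hvN, m, hm, hprod⟩ := hS (fun i => ⁅a, h i⁆ ^ n) (by
    intro i hi
    obtain ⟨-, h2, h3⟩ := hh i hi
    have hz := comm_left h2 a
    refine ⟨(D G (k + 1)).pow_mem hz n, ?_⟩
    have hpow : ∀ n : ℕ, χ i (⁅a, h i⁆ ^ n) = χ i ⁅a, h i⁆ ^ n := by
      intro n
      induction n with
      | zero => rw [pow_zero, pow_zero]; exact (hχ i hi).1.one
      | succ n ih =>
        rw [pow_succ, pow_succ, (hχ i hi).1.1 _ ((D G (k + 1)).pow_mem hz n) _ hz, ih]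
    rw [hpow, Circle.coe_pow]
    exact h3) κ hκ
  have hTm : ∀ i ∈ T.toList, i ∈ S := fun i hi => hTS (Finset.mem_toList.mp hi)
  set H := (T.toList.map h).prod with hH
  have hHsmall : H ∈ O1 ∩ W1 := by
    apply hO2s
    · rw [List.length_map, Finset.length_toList]
      exact Finset.card_le_card hTS
    · intro x hx
      obtain ⟨i, hi, rfl⟩ := List.mem_map.mp hx
      exact (hh i (hTm i hi)).1
  obtain ⟨hHD, d1, hd1, e1⟩ := comm_list (j := k) (a ^ n) (T.toList.map h) (by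
    intro x hx
    obtain ⟨i, hi, rfl⟩ := List.mem_map.mp hx
    exact (hh i (hTm i hi)).2.1)
  rw [List.map_map] at e1
  obtain ⟨d2, hd2, e2⟩ := list_congr_mod (j := k + 2) ((fun x => ⁅a ^ n, x⁆) ∘ h)
    (fun i => ⁅a, h i⁆ ^ n) T.toList (fun i hi => comm_pow (hh i (hTm i hi)).2.1 a n)
  rw [e2, ← hprod] at e1
  -- c = ⁅a^n, H⁆ = κ v m d2 d1
  set c := ⁅a ^ n, H⁆ with hc
  have hcD : c ∈ D G (k + 1) := comm_left hHD _
  set y := a ^ n * g with hy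
  obtain ⟨d3, hd3, e3⟩ := central hcD (H * y)
  have ea : a ^ n * H * g = c * (H * y) := by
    rw [hc, hy, commutatorElement_def]; group
  set m1 := m * d2 * d1 * d3 with hm1
  have hm1N : m1 ∈ Nk Γ (k + 2) := by
    have := D_le_Nk Γ (k + 2)
    exact (Nk Γ (k + 2)).mul_mem ((Nk Γ (k + 2)).mul_mem ((Nk Γ (k + 2)).mul_mem hm (this hd2))
      (this hd1)) (this hd3)
  have eb : a ^ n * H * g = H * (y * κ * v) * m1 := by
    rw [ea, e3, e1, hm1]; group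
  obtain ⟨w1, hw1, m2, hm2, e4⟩ := hVu v hvV hvN (y * κ)
  have hκ' : (m2 * m1)⁻¹ ∈ Nk Γ (k + 2) := (Nk Γ (k + 2)).inv_mem ((Nk Γ (k + 2)).mul_mem hm2 hm1N)
  obtain ⟨o1, ho1, w2, hw2, γ, hγ, e5⟩ := hn1' (H * g) _ hκ'
  refine ⟨o1 * H, hO1s o1 ho1 H hHsmall.1, (H * w1)⁻¹ * w2, hW1s H hHsmall.2 w1 hw1 w2 hw2, γ, hγ, ?_⟩
  have e6 : (H * w1)⁻¹ * w2 * (a ^ n * (o1 * H) * g) * γ =
      (H * w1)⁻¹ * (w2 * (a ^ n * o1 * (H * g)) * γ) := by group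
  rw [e6, e5]
  have e7 : a ^ n * (H * g) = H * (w1 * (y * κ) * m2) * m1 := by
    rw [← mul_assoc, eb, e4]
  rw [e7]
  group

theorem fd_one [CompactSpace (G ⧸ Γ)] [LocallyConnectedSpace G] {a : G}
    (hgen : ∀ R : Subgroup G, IsOpen (R : Set G) → a ∈ R → R = ⊤)
    (hdense : Dense {g : G | ∃ n : ℕ, ∃ γ ∈ Γ, g = a ^ n * γ})
    (hΓ : IsClosed (Γ : Set G)) {s : ℕ} (hs : D G s = ⊥) : Fd Γ a 1 := by
  have hs' : D G (s + 1) = ⊥ := by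
    rw [eq_bot_iff, ← hs]
    exact D_succ_le s
  have key : ∀ j ≤ s, Fd Γ a (s + 1 - j) := by
    intro j
    induction j with
    | zero => intro _; exact fd_top Γ hΓ hs' a
    | succ j ih =>
      intro hj
      have h1 := ih (by omega)
      have e1 : s + 1 - j = (s - (j + 1)) + 2 := by omega
      have e2 : s + 1 - (j + 1) = (s - (j + 1)) + 1 := by omega
      rw [e1] at h1
      rw [e2]
      exact fd_step hgen hdense h1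
  have := key s le_rfl
  have e : s + 1 - s = 1 := by omega
  rwa [e] at this

end Pool.Agent.R783.Nil
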