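import Pool.Agent.R783.Nil.K1
import Pool.Agent.R783.Nil.ClaimB

/-!
# The tower of closed subgroups and fibre density
-/

namespace Pool.Agent.R783.Nil

open Topology Set Filter
open scoped commutatorElement Pointwise

universe u

variable {G : Type u} [Group G] [TopologicalSpace G] [IsTopologicalGroup G]

/-- the closure of `D k ⊔ Γ` -/
def Nk (Γ : Subgroup G) (k : ℕ) : Subgroup G := (D G k ⊔ Γ).topologicalClosure

variable (Γ : Subgroup G)

theorem Nk_closed (k : ℕ) : IsClosed (Nk Γ k : Set G) := Subgroup.isClosed_topologicalClosure _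

theorem D_le_Nk (k : ℕ) : D G k ≤ Nk Γ k :=
  le_trans le_sup_left (Subgroup.le_topologicalClosure _)

theorem Γ_le_Nk (k : ℕ) : Γ ≤ Nk Γ k := le_trans le_sup_right (Subgroup.le_topologicalClosure _)

theorem Nk_succ_le (k : ℕ) : Nk Γ (k + 1) ≤ Nk Γ k :=
  Subgroup.topologicalClosure_mono (sup_le_sup_right (D_succ_le k) _)

/-- `N (k+1)` is normalised by `N k` -/
theorem Nk_conj (k : ℕ) {n m : G} (hn : n ∈ Nk Γ k) (hm : m ∈ Nk Γ (k + 1)) :
    n * m * n⁻¹ ∈ Nk Γ (k + 1) := by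
  let R : Subgroup G :=
    { carrier := {g | ∀ h ∈ Nk Γ (k + 1), g * h * g⁻¹ ∈ Nk Γ (k + 1) ∧ g⁻¹ * h * g ∈ Nk Γ (k + 1)}
      one_mem' := by intro h hh; simpa using hh
      mul_mem' := by
        intro x y hx hy h hh
        constructor
        · have := (hx _ (hy h hh).1).1
          simpa [mul_assoc] using this
        · have := (hy _ (hx h hh).2).2
          simpa [mul_assoc] using this
      inv_mem' := by
        intro x hx h hh
        have := hx h hh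
        rw [inv_inv]
        exact ⟨this.2, this.1⟩ }
  have hRc : IsClosed (R : Set G) := by
    have : (R : Set G) = ⋂ h ∈ Nk Γ (k + 1), ({g | g * h * g⁻¹ ∈ (Nk Γ (k + 1) : Set G)} ∩
        {g | g⁻¹ * h * g ∈ (Nk Γ (k + 1) : Set G)}) := by
      ext g
      simp only [mem_iInter]
      rfl
    rw [this]
    refine isClosed_biInter (fun h _ => IsClosed.inter ?_ ?_)
    · exact (Nk_closed Γ (k + 1)).preimage (by fun_prop)
    · exact (Nk_closed Γ (k + 1)).preimage (by fun_prop)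
  have hD : D G k ≤ R := by
    intro c hc h hh
    constructor
    · have e : c * h * c⁻¹ = ⁅c, h⁆ * h := by rw [commutatorElement_def]; group
      rw [e]
      exact (Nk Γ (k + 1)).mul_mem (D_le_Nk Γ _ (comm_right hc h)) hh
    · have e : c⁻¹ * h * c = ⁅c⁻¹, h⁆ * h := by rw [commutatorElement_def]; group
      rw [e]
      exact (Nk Γ (k + 1)).mul_mem (D_le_Nk Γ _ (comm_right ((D G k).inv_mem hc) h)) hh
  have hΓ : Γ ≤ R := by
    intro c hc h hh
    have hc' := Γ_le_Nk Γ (k + 1) hc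
    exact ⟨(Nk Γ (k + 1)).mul_mem ((Nk Γ (k + 1)).mul_mem hc' hh) ((Nk Γ (k + 1)).inv_mem hc'),
      (Nk Γ (k + 1)).mul_mem ((Nk Γ (k + 1)).mul_mem ((Nk Γ (k + 1)).inv_mem hc') hh) hc'⟩
  have hle : Nk Γ k ≤ R := Subgroup.topologicalClosure_minimal _ (sup_le hD hΓ) hRc
  exact (hle hn m hm).1

/-- commutators of elements of `N k` are in `N (k+1)` -/
theorem Nk_comm (k : ℕ) {n m : G} (hn : n ∈ Nk Γ k) (hm : m ∈ Nk Γ k) :
    ⁅n, m⁆ ∈ Nk Γ (k + 1) := by
  have hconj : ∀ {x z : G}, x ∈ Nk Γ k → z ∈ Nk Γ (k + 1) → x * z * x⁻¹ ∈ Nk Γ (k + 1) :=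
    fun hx hz => Nk_conj Γ k hx hz
  -- for fixed y, the x with the commutator in N (k+1) form a closed subgroup
  have step : ∀ y ∈ Nk Γ k, (∀ x ∈ D G k, ⁅x, y⁆ ∈ Nk Γ (k + 1)) → (∀ x ∈ Γ, ⁅x, y⁆ ∈ Nk Γ (k + 1)) →
      ∀ x ∈ Nk Γ k, ⁅x, y⁆ ∈ Nk Γ (k + 1) := by
    intro y hy h1 h2
    let R : Subgroup G :=
      { carrier := {x | x ∈ Nk Γ k ∧ ⁅x, y⁆ ∈ Nk Γ (k + 1)}
        one_mem' := ⟨(Nk Γ k).one_mem, by
          rw [commutatorElement_one_left]; exact (Nk Γ (k + 1)).one_mem⟩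
        mul_mem' := by
          rintro x x' ⟨hx, hx1⟩ ⟨hx', hx'1⟩
          refine ⟨(Nk Γ k).mul_mem hx hx', ?_⟩
          have e : ⁅x * x', y⁆ = (x * ⁅x', y⁆ * x⁻¹) * ⁅x, y⁆ := by
            simp only [commutatorElement_def]; group
          rw [e]
          exact (Nk Γ (k + 1)).mul_mem (hconj hx hx'1) hx1
        inv_mem' := by
          rintro x ⟨hx, hx1⟩
          refine ⟨(Nk Γ k).inv_mem hx, ?_⟩
          have e : ⁅x⁻¹, y⁆ = x⁻¹ * (⁅x, y⁆)⁻¹ * x⁻¹⁻¹ := by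
            simp only [commutatorElement_def]; group
          rw [e]
          exact hconj ((Nk Γ k).inv_mem hx) ((Nk Γ (k + 1)).inv_mem hx1) }
    have hRc : IsClosed (R : Set G) := by
      have : (R : Set G) = (Nk Γ k : Set G) ∩ {x | ⁅x, y⁆ ∈ (Nk Γ (k + 1) : Set G)} := by
        ext x; rfl
      rw [this]
      refine (Nk_closed Γ k).inter ((Nk_closed Γ (k + 1)).preimage ?_)
      simp only [commutatorElement_def]; fun_prop
    have hle : Nk Γ k ≤ R := Subgroup.topologicalClosure_minimal _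
      (sup_le (fun x hx => ⟨D_le_Nk Γ k hx, h1 x hx⟩) (fun x hx => ⟨Γ_le_Nk Γ k hx, h2 x hx⟩)) hRc
    intro x hx
    exact (hle hx).2
  -- y in Γ
  have hyΓ : ∀ y ∈ Γ, ∀ x ∈ Nk Γ k, ⁅x, y⁆ ∈ Nk Γ (k + 1) := by
    intro y hy
    apply step y (Γ_le_Nk Γ k hy)
    · intro x hx; exact D_le_Nk Γ _ (comm_right hx y)
    · intro x hx
      apply Γ_le_Nk Γ
      rw [commutatorElement_def]
      exact Γ.mul_mem (Γ.mul_mem (Γ.mul_mem hx hy) (Γ.inv_mem hx)) (Γ.inv_mem hy)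
  apply step m hm _ _ n hn
  · intro x hx; exact D_le_Nk Γ _ (comm_right hx m)
  · intro x hx
    have := hyΓ x hx m hm
    rw [← commutatorElement_inv]
    exact (Nk Γ (k + 1)).inv_mem this

/-- **Subset products in the fibre groups.** -/
theorem K1G [CompactSpace (G ⧸ Γ)] (k : ℕ) {V : Set G} (hV : V ∈ 𝓝 (1 : G)) :
    ∃ (ι : Type u) (S : Finset ι) (χ : ι → G → Circle),
      (∀ i ∈ S, Hm k (χ i) ∧ (∀ γ ∈ Γ, χ i γ = 1) ∧ ContinuousOn (χ i) (D G k : Set G) ∧
        ∃ x ∈ D G k, χ i x ≠ 1) ∧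
      ∀ h : ι → G, (∀ i ∈ S, h i ∈ D G k ∧ (χ i (h i) : ℂ) = -1) → ∀ κ ∈ Nk Γ k,
        ∃ T ⊆ S, ∃ v ∈ V, v ∈ Nk Γ k ∧ ∃ m ∈ Nk Γ (k + 1), κ * v * m = (T.toList.map h).prod := by
  classical
  set N := Nk Γ k with hN
  set M : Subgroup N := (Nk Γ (k + 1)).subgroupOf N with hM
  have hMmem : ∀ x : N, x ∈ M ↔ (x : G) ∈ Nk Γ (k + 1) := fun x => Subgroup.mem_subgroupOf
  have hMn : M.Normal := by
    constructor
    intro m hm g
    rw [hMmem] at hm ⊢
    exact Nk_conj Γ k g.2 hm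
  have hMc : IsClosed (M : Set N) := (Nk_closed Γ (k + 1)).preimage continuous_subtype_val
  have hcomm : ∀ x y : N ⧸ M, x * y = y * x := by
    intro x y
    obtain ⟨x, rfl⟩ := QuotientGroup.mk_surjective x
    obtain ⟨y, rfl⟩ := QuotientGroup.mk_surjective y
    rw [← QuotientGroup.mk_mul, ← QuotientGroup.mk_mul, QuotientGroup.eq, hMmem]
    have h1 := Nk_comm Γ k ((Nk Γ k).inv_mem y.2) ((Nk Γ k).inv_mem x.2)
    have e : (((x * y)⁻¹ * (y * x) : N) : G) = ⁅(y : G)⁻¹, (x : G)⁻¹⁆ := by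
      rw [commutatorElement_def]
      push_cast
      group
    rw [e]; exact h1
  let inst : CommGroup (N ⧸ M) := { (inferInstance : Group (N ⧸ M)) with mul_comm := hcomm }
  have htg : IsTopologicalGroup (N ⧸ M) := QuotientGroup.instIsTopologicalGroup M
  have hT3 : T3Space (N ⧸ M) := by
    have : IsClosed (M : Set N) := hMc
    exact QuotientGroup.instT3Space M
  have hcp : CompactSpace (N ⧸ M) := by
    constructor
    apply isCompact_of_finite_subcover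
    intro ι U hU hcov
    have hpre : ∀ i, ∃ V' : Set G, IsOpen V' ∧ ∀ x : N, (x : G) ∈ V' ↔ (x : N ⧸ M) ∈ U i := by
      intro i
      have h1 : IsOpen ((QuotientGroup.mk : N → N ⧸ M) ⁻¹' U i) :=
        (hU i).preimage QuotientGroup.continuous_mk
      obtain ⟨V', hV', hV'e⟩ := isOpen_induced_iff.mp h1
      refine ⟨V', hV', fun x => ?_⟩
      have : x ∈ (Subtype.val ⁻¹' V' : Set N) ↔ x ∈ (QuotientGroup.mk : N → N ⧸ M) ⁻¹' U i := by
        rw [hV'e]
      exact this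
    choose V' hV'o hV' using hpre
    let C : Option ι → Set (G ⧸ Γ) := fun o =>
      Option.elim o ((QuotientGroup.mk : G → G ⧸ Γ) '' (N : Set G)ᶜ)
        (fun i => (QuotientGroup.mk : G → G ⧸ Γ) '' V' i)
    have hCo : ∀ o, IsOpen (C o) := by
      intro o
      cases o with
      | none => exact QuotientGroup.isOpenMap_coe _ (Nk_closed Γ k).isOpen_compl
      | some i => exact QuotientGroup.isOpenMap_coe _ (hV'o i)
    have hCcov : (univ : Set (G ⧸ Γ)) ⊆ ⋃ o, C o := by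
      intro q _
      obtain ⟨x, rfl⟩ := QuotientGroup.mk_surjective q
      by_cases hx : x ∈ N
      · obtain ⟨i, hi⟩ := mem_iUnion.mp (hcov (mem_univ ((⟨x, hx⟩ : N) : N ⧸ M)))
        exact mem_iUnion.mpr ⟨some i, x, (hV' i ⟨x, hx⟩).mpr hi, rfl⟩
      · exact mem_iUnion.mpr ⟨none, x, hx, rfl⟩
    obtain ⟨t, ht⟩ := isCompact_univ.elim_finite_subcover C hCo hCcov
    refine ⟨t.eraseNone, ?_⟩
    intro q _
    obtain ⟨x, rfl⟩ := QuotientGroup.mk_surjective q
    obtain ⟨o, ho⟩ := mem_iUnion.mp (ht (mem_univ ((x : G) : G ⧸ Γ)))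
    obtain ⟨hot, ho2⟩ := mem_iUnion.mp ho
    have hyN : ∀ y : G, y⁻¹ * (x : G) ∈ Γ → y ∈ N := by
      intro y hγ
      have h1 : y = (x : G) * (y⁻¹ * (x : G))⁻¹ := by group
      rw [h1]
      exact N.mul_mem x.2 (N.inv_mem (Γ_le_Nk Γ k hγ))
    cases o with
    | none =>
      obtain ⟨y, hy, hyx⟩ := ho2
      exact absurd (hyN y (QuotientGroup.eq.mp hyx)) hy
    | some i =>
      obtain ⟨y, hy, hyx⟩ := ho2
      have hγ : y⁻¹ * (x : G) ∈ Γ := QuotientGroup.eq.mp hyx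
      refine mem_iUnion₂.mpr ⟨i, Finset.mem_eraseNone.mpr hot, ?_⟩
      have h1 : ((⟨y, hyN y hγ⟩ : N) : N ⧸ M) ∈ U i := (hV' i ⟨y, hyN y hγ⟩).mp hy
      have h2 : ((⟨y, hyN y hγ⟩ : N) : N ⧸ M) = (x : N ⧸ M) := by
        rw [QuotientGroup.eq, hMmem]
        exact Γ_le_Nk Γ _ hγ
      rw [← h2]; exact h1
  have hVn : (QuotientGroup.mk : N → N ⧸ M) '' (Subtype.val ⁻¹' V) ∈ 𝓝 (1 : N ⧸ M) := by
    have h1 : (Subtype.val ⁻¹' V : Set N) ∈ 𝓝 (1 : N) :=
      continuous_subtype_val.continuousAt.preimage_mem_nhds (by simpa using hV)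
    exact (QuotientGroup.isOpenMap_coe (N := M)).image_mem_nhds h1
  obtain ⟨S, hS1, hS⟩ := K1 hVn
  -- the functions on G
  let X : ((N ⧸ M) →ₜ* Circle) → G → Circle := fun ψ x =>
    if hx : x ∈ N then ψ ((⟨x, hx⟩ : N) : N ⧸ M) else 1
  have hX : ∀ ψ (x : G) (hx : x ∈ N), X ψ x = ψ ((⟨x, hx⟩ : N) : N ⧸ M) := fun ψ x hx => dif_pos hx
  have hXmul : ∀ ψ, ∀ x ∈ N, ∀ y ∈ N, X ψ (x * y) = X ψ x * X ψ y := by
    intro ψ x hx y hy
    rw [hX ψ x hx, hX ψ y hy, hX ψ (x * y) (N.mul_mem hx hy), ← map_mul]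
    rfl
  have hXone : ∀ ψ, ∀ x ∈ Nk Γ (k + 1), X ψ x = 1 := by
    intro ψ x hx
    rw [hX ψ x (Nk_succ_le Γ k hx)]
    have : ((⟨x, Nk_succ_le Γ k hx⟩ : N) : N ⧸ M) = 1 := by
      rw [QuotientGroup.eq_one_iff, hMmem]; exact hx
    rw [this, map_one]
  have hXc : ∀ ψ, ContinuousOn (X ψ) (N : Set G) := by
    intro ψ
    rw [continuousOn_iff_continuous_domRestrict]
    have : (N : Set G).domRestrict (X ψ) = fun x : N => ψ (x : N ⧸ M) := by
      funext x
      exact hX ψ x.1 x.2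
    rw [this]
    exact ψ.continuous_toFun.comp QuotientGroup.continuous_mk
  refine ⟨(N ⧸ M) →ₜ* Circle, S, X, ?_, ?_⟩
  · intro ψ hψ
    refine ⟨⟨fun x hx y hy => hXmul ψ x (D_le_Nk Γ k hx) y (D_le_Nk Γ k hy),
      fun x hx => hXone ψ x (D_le_Nk Γ _ hx)⟩, fun γ hγ => hXone ψ γ (Γ_le_Nk Γ _ hγ),
      (hXc ψ).mono (D_le_Nk Γ k), ?_⟩
    by_contra hcon
    push Not at hcon
    apply hS1 ψ hψ
    let R : Subgroup G :=
      { carrier := {x | x ∈ N ∧ X ψ x = 1}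
        one_mem' := ⟨N.one_mem, hXone ψ 1 (Nk Γ (k + 1)).one_mem⟩
        mul_mem' := by
          rintro x y ⟨hx, hx1⟩ ⟨hy, hy1⟩
          exact ⟨N.mul_mem hx hy, by rw [hXmul ψ x hx y hy, hx1, hy1, mul_one]⟩
        inv_mem' := by
          rintro x ⟨hx, hx1⟩
          refine ⟨N.inv_mem hx, ?_⟩
          have := hXmul ψ x hx x⁻¹ (N.inv_mem hx)
          rw [mul_inv_cancel, hXone ψ 1 (Nk Γ (k + 1)).one_mem, hx1, one_mul] at this
          exact this.symm }
    have hRc : IsClosed (R : Set G) := by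
      have h1 := (hXc ψ).preimage_isClosed_of_isClosed (Nk_closed Γ k) (isClosed_singleton (x := (1 : Circle)))
      have h2 : (R : Set G) = (N : Set G) ∩ X ψ ⁻¹' {1} := by ext x; rfl
      rw [h2]; exact h1
    have hle : N ≤ R := Subgroup.topologicalClosure_minimal _
      (sup_le (fun x hx => ⟨D_le_Nk Γ k hx, hcon x hx⟩)
        (fun x hx => ⟨Γ_le_Nk Γ k hx, hXone ψ x (Γ_le_Nk Γ _ hx)⟩)) hRc
    ext q
    obtain ⟨x, rfl⟩ := QuotientGroup.mk_surjective q
    have h1 := (hle x.2).2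
    rw [hX ψ x.1 x.2] at h1
    exact congrArg Subtype.val h1
  · intro h hh κ hκ
    have hN' : ∀ i ∈ S, h i ∈ N := fun i hi => D_le_Nk Γ k (hh i hi).1
    let h' : ((N ⧸ M) →ₜ* Circle) → N := fun i => if hi : h i ∈ N then ⟨h i, hi⟩ else 1
    have hh' : ∀ i ∈ S, ((h' i : N) : G) = h i := by
      intro i hi
      show (((if hi : h i ∈ N then ⟨h i, hi⟩ else 1) : N) : G) = h i
      rw [dif_pos (hN' i hi)]
    obtain ⟨T, hTS, hT⟩ := hS (fun i => (h' i : N ⧸ M)) (by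
      intro i hi
      have h1 := (hh i hi).2
      rw [hX i (h i) (hN' i hi)] at h1
      have h2 : h' i = ⟨h i, hN' i hi⟩ := Subtype.ext (hh' i hi)
      simp only [h2]
      exact h1) (((⟨κ, hκ⟩ : N) : N ⧸ M))
    obtain ⟨v, hvV, hv⟩ := hT
    refine ⟨T, hTS, v, hvV, v.2, (κ * v)⁻¹ * (T.toList.map h).prod, ?_, by group⟩
    have hprod : (∏ i ∈ T, ((h' i : N) : N ⧸ M)) = (((T.toList.map h').prod : N) : N ⧸ M) := by
      rw [← Finset.prod_map_toList]
      have := map_list_prod (QuotientGroup.mk' M) (T.toList.map h')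
      rw [List.map_map] at this
      exact this.symm
    rw [hprod, ← QuotientGroup.mk_inv, ← QuotientGroup.mk_mul, QuotientGroup.eq, hMmem] at hv
    have hprod' : (((T.toList.map h').prod : N) : G) = (T.toList.map h).prod := by
      have := map_list_prod N.subtype (T.toList.map h')
      rw [List.map_map] at this
      refine this.trans ?_
      congr 1
      apply List.map_congr_left
      intro i hi
      exact hh' i (hTS (Finset.mem_toList.mp hi))
    have e : ((v⁻¹ * ((⟨κ, hκ⟩ : N)⁻¹ * (T.toList.map h').prod) : N) : G) =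
        (κ * v)⁻¹ * (T.toList.map h).prod := by
      show (v : G)⁻¹ * (κ⁻¹ * (((T.toList.map h').prod : N) : G)) = _
      rw [hprod']
      group
    rw [e] at hv
    exact hv

end Pool.Agent.R783.Nil
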