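import Pool.Agent.R783.Nil.Re

/-!
# Nilsystems
-/

namespace Pool.Agent.R783.Nil

open Topology Set Filter
open scoped commutatorElement Pointwise Manifold ContDiff

universe u

section Red

variable {G : Type u} [Group G] [TopologicalSpace G] [IsTopologicalGroup G]

theorem t2_quot {Γ : Subgroup G} (hΓ : IsClosed (Γ : Set G)) : T2Space (G ⧸ Γ) := by
  constructor
  intro x y hxy
  obtain ⟨g1, rfl⟩ := QuotientGroup.mk_surjective x
  obtain ⟨g2, rfl⟩ := QuotientGroup.mk_surjective y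
  have hne : g1⁻¹ * g2 ∉ Γ := fun h => hxy (QuotientGroup.eq.mpr h)
  have hc : Continuous (fun p : G × G => g1⁻¹ * p.1⁻¹ * p.2 * g2) := by fun_prop
  have ho : IsOpen {p : G × G | g1⁻¹ * p.1⁻¹ * p.2 * g2 ∉ Γ} :=
    (hΓ.isOpen_compl).preimage hc
  obtain ⟨U, V, hU, hV, h1U, h1V, hUV⟩ := isOpen_prod_iff.mp ho 1 1 (by
    show g1⁻¹ * 1⁻¹ * 1 * g2 ∉ Γ
    simpa using hne)
  refine ⟨(QuotientGroup.mk : G → G ⧸ Γ) '' ((fun x => x * g1⁻¹) ⁻¹' U),
    (QuotientGroup.mk : G → G ⧸ Γ) '' ((fun x => x * g2⁻¹) ⁻¹' V),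
    QuotientGroup.isOpenMap_coe _ (hU.preimage (by fun_prop)),
    QuotientGroup.isOpenMap_coe _ (hV.preimage (by fun_prop)),
    ⟨g1, by simpa using h1U, rfl⟩, ⟨g2, by simpa using h1V, rfl⟩, ?_⟩
  rw [Set.disjoint_left]
  rintro _ ⟨x, hx, rfl⟩ ⟨y, hy, hxy'⟩
  have hmem : (x * g1⁻¹, y * g2⁻¹) ∈ U ×ˢ V := ⟨hx, hy⟩
  apply hUV hmem
  have h1 : y⁻¹ * x ∈ Γ := QuotientGroup.eq.mp hxy'
  have e : g1⁻¹ * (x * g1⁻¹)⁻¹ * (y * g2⁻¹) * g2 = (y⁻¹ * x)⁻¹ := by group
  show g1⁻¹ * (x * g1⁻¹)⁻¹ * (y * g2⁻¹) * g2 ∈ Γ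
  rw [e]; exact Γ.inv_mem h1

theorem iter_smul {Γ : Subgroup G} (a : G) (n : ℕ) (x : G ⧸ Γ) :
    (fun x : G ⧸ Γ => a • x)^[n] x = a ^ n • x := by
  induction n generalizing x with
  | zero => simp
  | succ n ih => rw [Function.iterate_succ_apply, ih, pow_succ, mul_smul]

theorem dense_of_min {Γ : Subgroup G} {a : G} (hmin : IsMin (fun x : G ⧸ Γ => a • x)) :
    Dense {g : G | ∃ n : ℕ, ∃ γ ∈ Γ, g = a ^ n * γ} := by
  have h1 := QuotientGroup.dense_preimage_mk.mpr (hmin ((1 : G) : G ⧸ Γ))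
  refine h1.mono ?_
  rintro g ⟨n, -, hn⟩
  rw [iter_smul] at hn
  have hn' : (g : G ⧸ Γ) = ((a ^ n * 1 : G) : G ⧸ Γ) := hn
  rw [mul_one] at hn'
  exact ⟨n, (a ^ n)⁻¹ * g, QuotientGroup.eq.mp hn'.symm, by group⟩

/-- transitivity along `A` -/
theorem trans_A [FirstCountableTopology G] [LocallyConnectedSpace G] [Group.IsNilpotent G]
    {Γ : Subgroup G} [CompactSpace (G ⧸ Γ)] (hΓ : IsClosed (Γ : Set G)) {a : G}
    (hmin : IsMin (fun x : G ⧸ Γ => a • x)) {A : Set ℕ} (hA : IsRe.{u} A)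
    {U V : Set (G ⧸ Γ)} (hU : IsOpen U) (hV : IsOpen V) (hUn : U.Nonempty) (hVn : V.Nonempty) :
    ∃ n ∈ A, ∃ x ∈ U, a ^ n • x ∈ V := by
  have hdense := dense_of_min hmin
  set C := Subgroup.connectedComponentOfOne G with hC
  have hCo : IsOpen (C : Set G) := isOpen_connectedComponent
  set G' : Subgroup G := C ⊔ Subgroup.zpowers a with hG'
  have hCG : C ≤ G' := le_sup_left
  have haG : a ∈ G' := (le_sup_right : Subgroup.zpowers a ≤ G') (Subgroup.mem_zpowers a)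
  have hG'o : IsOpen (G' : Set G) := Subgroup.isOpen_mono hCG hCo
  -- every point of the quotient is represented in G'
  have hrep : ∀ g : G, ∃ g' ∈ G', ∃ γ ∈ Γ, g = g' * γ := by
    intro g
    have ho : IsOpen ((fun x : G => x * g⁻¹) ⁻¹' (G' : Set G)) := hG'o.preimage (by fun_prop)
    obtain ⟨x, hx, n, γ, hγ, rfl⟩ := hdense.inter_open_nonempty _ ho ⟨g, by
      show g * g⁻¹ ∈ G'
      rw [mul_inv_cancel]; exact G'.one_mem⟩
    have hx' : a ^ n * γ * g⁻¹ ∈ G' := hx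
    refine ⟨(a ^ n * γ * g⁻¹)⁻¹ * a ^ n, G'.mul_mem (G'.inv_mem hx') (G'.pow_mem haG n), γ, hγ, ?_⟩
    group
  set a' : G' := ⟨a, haG⟩ with ha'
  set Γ' : Subgroup G' := Γ.subgroupOf G' with hΓ'
  have hΓ'mem : ∀ x : G', x ∈ Γ' ↔ (x : G) ∈ Γ := fun x => Subgroup.mem_subgroupOf
  have hΓ'c : IsClosed (Γ' : Set G') := hΓ.preimage continuous_subtype_val
  have hlc : LocallyConnectedSpace G' := hG'o.locallyConnectedSpace
  have hfc : FirstCountableTopology G' := IsInducing.subtypeVal.firstCountableTopology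
  have hopenmap : IsOpenMap (Subtype.val : G' → G) := hG'o.isOpenMap_subtype_val
  have hcp : CompactSpace (G' ⧸ Γ') := by
    constructor
    apply isCompact_of_finite_subcover
    intro ι W hW hcov
    let B : ι → Set (G ⧸ Γ) := fun i => (QuotientGroup.mk : G → G ⧸ Γ) ''
      (Subtype.val '' ((QuotientGroup.mk : G' → G' ⧸ Γ') ⁻¹' W i))
    have hBo : ∀ i, IsOpen (B i) := fun i => QuotientGroup.isOpenMap_coe _
      (hopenmap _ ((hW i).preimage QuotientGroup.continuous_mk))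
    have hBcov : (univ : Set (G ⧸ Γ)) ⊆ ⋃ i, B i := by
      intro q _
      obtain ⟨g, rfl⟩ := QuotientGroup.mk_surjective q
      obtain ⟨g', hg', γ, hγ, rfl⟩ := hrep g
      obtain ⟨i, hi⟩ := mem_iUnion.mp (hcov (mem_univ ((⟨g', hg'⟩ : G') : G' ⧸ Γ')))
      refine mem_iUnion.mpr ⟨i, g', ⟨⟨g', hg'⟩, hi, rfl⟩, ?_⟩
      rw [QuotientGroup.eq]
      have e : g'⁻¹ * (g' * γ) = γ := by group
      rw [e]; exact hγ
    obtain ⟨t, ht⟩ := isCompact_univ.elim_finite_subcover B hBo hBcov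
    refine ⟨t, ?_⟩
    intro q _
    obtain ⟨x, rfl⟩ := QuotientGroup.mk_surjective q
    obtain ⟨i, hi⟩ := mem_iUnion.mp (ht (mem_univ ((x : G) : G ⧸ Γ)))
    obtain ⟨hit, _, ⟨y, hy, rfl⟩, hyx⟩ := mem_iUnion.mp hi
    refine mem_iUnion₂.mpr ⟨i, hit, ?_⟩
    have h1 : (y : G)⁻¹ * (x : G) ∈ Γ := QuotientGroup.eq.mp hyx
    have h2 : (y : G' ⧸ Γ') = (x : G' ⧸ Γ') := by
      rw [QuotientGroup.eq, hΓ'mem]; exact h1
    rw [← h2]; exact hy
  have hdense' : Dense {g : G' | ∃ n : ℕ, ∃ γ ∈ Γ', g = a' ^ n * γ} := by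
    rw [dense_iff_inter_open]
    rintro W hW ⟨w, hw⟩
    obtain ⟨_, ⟨x, hxW, rfl⟩, n, γ, hγ, e⟩ := hdense.inter_open_nonempty _ (hopenmap _ hW)
      ⟨w, w, hw, rfl⟩
    have hγ' : γ ∈ G' := by
      have e2 : γ = (a ^ n)⁻¹ * (x : G) := by rw [e]; group
      rw [e2]; exact G'.mul_mem (G'.inv_mem (G'.pow_mem haG n)) x.2
    refine ⟨x, hxW, n, ⟨γ, hγ'⟩, (hΓ'mem _).mpr hγ, ?_⟩
    apply Subtype.ext
    rw [e]; rfl
  have hgen' : ∀ R : Subgroup G', IsOpen (R : Set G') → a' ∈ R → R = ⊤ := by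
    intro R hR haR
    set R1 : Subgroup G := R.map G'.subtype with hR1
    have hR1o : IsOpen (R1 : Set G) := by
      have : (R1 : Set G) = Subtype.val '' (R : Set G') := rfl
      rw [this]; exact hopenmap _ hR
    have hclopen : IsClopen (R1 : Set G) := ⟨R1.isClosed_of_isOpen hR1o, hR1o⟩
    have h1 : C ≤ R1 := by
      intro x hx
      exact hclopen.connectedComponent_subset R1.one_mem hx
    have h2 : Subgroup.zpowers a ≤ R1 := by
      rw [Subgroup.zpowers_le]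
      exact ⟨a', haR, rfl⟩
    rw [eq_top_iff]
    intro x _
    obtain ⟨y, hy, hyx⟩ := (sup_le h1 h2) x.2
    have : y = x := Subtype.ext hyx
    rw [← this]; exact hy
  have hnil : Group.IsNilpotent G' := inferInstance
  obtain ⟨s, hs⟩ := Subgroup.nilpotent_iff_lowerCentralSeries.mp hnil
  obtain ⟨x1, hx1⟩ := hUn
  obtain ⟨x2, hx2⟩ := hVn
  obtain ⟨g1, rfl⟩ := QuotientGroup.mk_surjective x1
  obtain ⟨g2, rfl⟩ := QuotientGroup.mk_surjective x2
  obtain ⟨g1', hg1', γ1, hγ1, rfl⟩ := hrep g1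
  obtain ⟨g2', hg2', γ2, hγ2, rfl⟩ := hrep g2
  have hq : ∀ (g γ : G), γ ∈ Γ → ((g * γ : G) : G ⧸ Γ) = (g : G ⧸ Γ) := by
    intro g γ hγ
    rw [eq_comm, QuotientGroup.eq]
    have e : g⁻¹ * (g * γ) = γ := by group
    rw [e]; exact hγ
  rw [hq _ _ hγ1] at hx1
  rw [hq _ _ hγ2] at hx2
  have hO : {o : G' | (((o : G) * g1' : G) : G ⧸ Γ) ∈ U} ∈ 𝓝 (1 : G') := by
    apply IsOpen.mem_nhds
    · exact hU.preimage (QuotientGroup.continuous_mk.comp (by fun_prop))
    · show (((1 : G) * g1' : G) : G ⧸ Γ) ∈ U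
      rw [one_mul]; exact hx1
  have hW : {o : G' | (((o : G) * g2' : G) : G ⧸ Γ) ∈ V} ∈ 𝓝 (1 : G') := by
    apply IsOpen.mem_nhds
    · exact hV.preimage (QuotientGroup.continuous_mk.comp (by fun_prop))
    · show (((1 : G) * g2' : G) : G ⧸ Γ) ∈ V
      rw [one_mul]; exact hx2
  obtain ⟨n, hn, o, ho, w, hw, γ, hγ, e⟩ := abs_main hΓ'c hs hgen' hdense' hA hO hW
    ⟨g1', hg1'⟩ ⟨g2', hg2'⟩
  have e' : a ^ n * (o : G) * g1' = (w : G) * g2' * (γ : G) := by
    have := congrArg (Subtype.val : G' → G) e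
    exact this
  refine ⟨n, hn, (((o : G) * g1' : G) : G ⧸ Γ), ho, ?_⟩
  have e3 : a ^ n • (((o : G) * g1' : G) : G ⧸ Γ) = ((a ^ n * ((o : G) * g1') : G) : G ⧸ Γ) := rfl
  rw [e3, ← mul_assoc, e', hq _ _ ((hΓ'mem γ).mp hγ)]
  exact hw

/-- a point with dense orbit along `A` -/
theorem point_A [FirstCountableTopology G] [LocallyConnectedSpace G] [Group.IsNilpotent G]
    {Γ : Subgroup G} [CompactSpace (G ⧸ Γ)] [SecondCountableTopology (G ⧸ Γ)]
    (hΓ : IsClosed (Γ : Set G)) {a : G}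
    (hmin : IsMin (fun x : G ⧸ Γ => a • x)) {A : Set ℕ} (hA : IsRe.{u} A) :
    ∃ y : G ⧸ Γ, Dense {z | ∃ n ∈ A, z = (fun x : G ⧸ Γ => a • x)^[n] y} := by
  have hT2 := t2_quot hΓ
  have hB := TopologicalSpace.isBasis_countableBasis (G ⧸ Γ)
  set S := TopologicalSpace.countableBasis (G ⧸ Γ) with hS
  have hd := dense_biInter_of_isOpen (S := S) (f := fun B => ⋃ n ∈ A, (fun x => a ^ n • x) ⁻¹' B)
    (by
      intro B hB'
      refine isOpen_biUnion (fun n _ => ?_)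
      exact (TopologicalSpace.isOpen_of_mem_countableBasis hB').preimage (continuous_const_smul _))
    (TopologicalSpace.countable_countableBasis _) (by
      intro B hB'
      rw [dense_iff_inter_open]
      intro U hU hUn
      obtain ⟨n, hn, x, hxU, hxB⟩ := trans_A hΓ hmin hA hU
        (TopologicalSpace.isOpen_of_mem_countableBasis hB') hUn
        (TopologicalSpace.nonempty_of_mem_countableBasis hB')
      exact ⟨x, hxU, mem_iUnion₂.mpr ⟨n, hn, hxB⟩⟩)
  obtain ⟨y, hy⟩ := hd.nonempty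
  refine ⟨y, ?_⟩
  rw [hB.dense_iff]
  intro B hB' _
  obtain ⟨n, hn, hy'⟩ := mem_iUnion₂.mp (mem_iInter₂.mp hy B hB')
  exact ⟨a ^ n • y, hy', n, hn, (iter_smul a n y).symm⟩

end Red

section Lie

variable {E : Type*} [NormedAddCommGroup E] [NormedSpace ℝ E] [FiniteDimensional ℝ E]

/-- quotients of Lie groups that are compact are second countable -/
theorem second_quot {G : Type u} [Group G] [TopologicalSpace G] [IsTopologicalGroup G]
    [ChartedSpace E G] (Γ : Subgroup G) [CompactSpace (G ⧸ Γ)] :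
    SecondCountableTopology (G ⧸ Γ) := by
  have hE : SecondCountableTopology E := inferInstance
  let W : G → Set (G ⧸ Γ) := fun g => (QuotientGroup.mk : G → G ⧸ Γ) '' (chartAt E g).source
  have hWo : ∀ g, IsOpen (W g) := fun g =>
    QuotientGroup.isOpenMap_coe _ (chartAt E g).open_source
  have hcov : (univ : Set (G ⧸ Γ)) ⊆ ⋃ g, W g := by
    intro q _
    obtain ⟨g, rfl⟩ := QuotientGroup.mk_surjective q
    exact mem_iUnion.mpr ⟨g, g, mem_chart_source E g, rfl⟩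
  obtain ⟨t, ht⟩ := isCompact_univ.elim_finite_subcover W hWo hcov
  have hsc : ∀ g, SecondCountableTopology (W g) := by
    intro g
    have hs : SecondCountableTopology (chartAt E g).source :=
      (chartAt E g).secondCountableTopology_source
    have hf : ∀ x : (chartAt E g).source, ((x : G) : G ⧸ Γ) ∈ W g := fun x => ⟨x, x.2, rfl⟩
    let f : (chartAt E g).source → W g := fun x => ⟨((x : G) : G ⧸ Γ), hf x⟩
    have hfc : Continuous f := by
      apply Continuous.subtype_mk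
      exact QuotientGroup.continuous_mk.comp continuous_subtype_val
    have hfo : IsOpenMap f := by
      intro V hV
      have h1 : IsOpen ((QuotientGroup.mk : G → G ⧸ Γ) '' (Subtype.val '' V)) :=
        QuotientGroup.isOpenMap_coe _ ((chartAt E g).open_source.isOpenMap_subtype_val _ hV)
      have h2 : f '' V = Subtype.val ⁻¹' ((QuotientGroup.mk : G → G ⧸ Γ) '' (Subtype.val '' V)) := by
        ext q
        constructor
        · rintro ⟨x, hx, rfl⟩
          exact ⟨x, ⟨x, hx, rfl⟩, rfl⟩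
        · rintro ⟨_, ⟨x, hx, rfl⟩, hq⟩
          exact ⟨x, hx, Subtype.ext hq⟩
      rw [h2]
      exact h1.preimage continuous_subtype_val
    have hfs : Function.Surjective f := by
      rintro ⟨_, x, hx, rfl⟩
      exact ⟨⟨x, hx⟩, rfl⟩
    have hB := (TopologicalSpace.isBasis_countableBasis (chartAt E g).source)
    have hB2 := hB.isQuotientMap (hfo.isQuotientMap hfc hfs) hfo
    exact hB2.secondCountableTopology ((TopologicalSpace.countable_countableBasis _).image _)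
  have hc : ⋃ g : t, W g = univ := by
    apply eq_univ_of_univ_subset
    intro q hq
    obtain ⟨g, hg⟩ := mem_iUnion.mp (ht hq)
    obtain ⟨hgt, hgq⟩ := mem_iUnion.mp hg
    exact mem_iUnion.mpr ⟨⟨g, hgt⟩, hgq⟩
  exact TopologicalSpace.secondCountableTopology_of_countable_cover (fun g : t => hWo g) hc

/-- **Nilsystems and `R_e`-sequences.** -/
theorem nil_re {G : Type u} [TopologicalSpace G] [ChartedSpace E G] [Group G]
    [LieGroup 𝓘(ℝ, E) ∞ G] [T2Space G] [Group.IsNilpotent G] (Γ : Subgroup G)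
    [DiscreteTopology Γ] [CompactSpace (G ⧸ Γ)] (a : G)
    (hmin : IsMin (fun x : G ⧸ Γ => a • x)) {A : Set ℕ} (hA : IsRe.{u} A) :
    ∃ y : G ⧸ Γ, Dense {z | ∃ n ∈ A, z = (fun x : G ⧸ Γ => a • x)^[n] y} := by
  have : IsTopologicalGroup G := topologicalGroup_of_lieGroup 𝓘(ℝ, E) ∞
  have hlc : LocallyConnectedSpace G := ChartedSpace.locallyConnectedSpace E G
  have hfc : FirstCountableTopology G := by
    constructor
    intro x
    have h1 := (chartAt E x).symm.map_nhds_eq (x := chartAt E x x) (by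
      simpa using (chartAt E x).map_source (mem_chart_source E x))
    rw [OpenPartialHomeomorph.left_inv _ (mem_chart_source E x)] at h1
    rw [← h1]
    infer_instance
  have hΓ : IsClosed (Γ : Set G) := Subgroup.isClosed_of_discrete
  have hsc := second_quot (E := E) Γ
  exact point_A hΓ hmin hA

end Lie

end Pool.Agent.R783.Nil
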