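import Pool.Agent.Helper472.Lat_Chars

/-!
# Density of subset products in a compact abelian group
-/

set_option linter.unusedSectionVars false

namespace Pool.Agent.R783.Nil

open MeasureTheory Topology Set

universe u

section Chars

variable {K : Type u} [CommGroup K] [TopologicalSpace K] [IsTopologicalGroup K]

/-- complex function of a continuous character -/
noncomputable def cf (χ : K →ₜ* Circle) : C(K, ℂ) :=
  ⟨fun x => (χ x : ℂ), continuous_subtype_val.comp χ.continuous_toFun⟩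

theorem cf_apply (χ : K →ₜ* Circle) (x : K) : cf χ x = (χ x : ℂ) := rfl

theorem cf_mul (χ ψ : K →ₜ* Circle) : cf (χ * ψ) = cf χ * cf ψ := by
  ext x; simp [cf_apply]

theorem cf_one : cf (1 : K →ₜ* Circle) = 1 := by
  ext x; simp [cf_apply]

theorem star_cf (χ : K →ₜ* Circle) : star (cf χ) = cf χ⁻¹ := by
  ext x
  have h : (χ⁻¹ : K →ₜ* Circle) x = (χ x)⁻¹ := rfl
  rw [cf_apply, h, Circle.coe_inv_eq_conj]
  simp [cf_apply]

variable [CompactSpace K] [T2Space K]

/-- star subalgebra generated by characters -/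
noncomputable def alg (K : Type u) [CommGroup K] [TopologicalSpace K] [IsTopologicalGroup K]
    [CompactSpace K] [T2Space K] : StarSubalgebra ℂ C(K, ℂ) where
  toSubalgebra := Algebra.adjoin ℂ (Set.range (cf (K := K)))
  star_mem' := by
    change Algebra.adjoin ℂ (Set.range (cf (K := K))) ≤
      star (Algebra.adjoin ℂ (Set.range (cf (K := K))))
    refine Algebra.adjoin_le ?_
    rintro - ⟨χ, rfl⟩
    exact Algebra.subset_adjoin ⟨χ⁻¹, (star_cf χ).symm⟩

theorem alg_coe : Subalgebra.toSubmodule (alg K).toSubalgebra =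
      Submodule.span ℂ (Set.range (cf (K := K))) := by
  apply Algebra.adjoin_eq_span_of_subset
  refine Set.Subset.trans ?_ Submodule.subset_span
  intro x hx
  refine Submonoid.closure_induction (fun _ => id) ⟨1, cf_one⟩ ?_ hx
  rintro - - - - ⟨m, rfl⟩ ⟨n, rfl⟩
  exact ⟨m * n, cf_mul _ _⟩

theorem approx (f : C(K, ℂ)) {ε : ℝ} (hε : 0 < ε) :
    ∃ P ∈ Submodule.span ℂ (Set.range (cf (K := K))), ‖f - P‖ < ε := by
  have hdense : (alg K).topologicalClosure = ⊤ := by
    apply ContinuousMap.starSubalgebra_topologicalClosure_eq_top_of_separatesPoints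
    intro x y hxy
    obtain ⟨χ, hne⟩ := Pool.LatH472.chars (x * y⁻¹) (by rwa [Ne, mul_inv_eq_one])
    refine ⟨_, ⟨cf χ, Algebra.subset_adjoin ⟨χ, rfl⟩, rfl⟩, ?_⟩
    intro h
    apply hne
    have h2 : χ x = χ y := Subtype.coe_injective (by simpa [cf_apply] using h)
    rw [map_mul, map_inv, h2, mul_inv_cancel]
  have hf : f ∈ ((alg K).topologicalClosure : Set C(K, ℂ)) := by rw [hdense]; trivial
  rw [StarSubalgebra.topologicalClosure_coe] at hf
  obtain ⟨P, hP, hd⟩ := Metric.mem_closure_iff.mp hf ε hε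
  refine ⟨P, ?_, by rwa [dist_eq_norm] at hd⟩
  rw [← alg_coe]
  exact hP

theorem integral_char [MeasurableSpace K] [BorelSpace K] (μ : Measure K) [μ.IsHaarMeasure]
    (χ : K →ₜ* Circle) (hχ : χ ≠ 1) : ∫ x, (χ x : ℂ) ∂μ = 0 := by
  obtain ⟨g, hg⟩ : ∃ g, χ g ≠ 1 := by
    by_contra h
    push Not at h
    exact hχ (by ext x; rw [h x]; rfl)
  have h1 : ∫ x, (χ (g * x) : ℂ) ∂μ = ∫ x, (χ x : ℂ) ∂μ :=
    integral_mul_left_eq_self (fun x => (χ x : ℂ)) g
  have h2 : ∫ x, (χ (g * x) : ℂ) ∂μ = (χ g : ℂ) * ∫ x, (χ x : ℂ) ∂μ := by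
    rw [← integral_const_mul]
    congr 1
    ext x
    rw [map_mul, Circle.coe_mul]
  rw [h1] at h2
  have h3 : (1 - (χ g : ℂ)) * ∫ x, (χ x : ℂ) ∂μ = 0 := by
    rw [sub_mul, one_mul, ← h2, sub_self]
  rcases mul_eq_zero.1 h3 with h | h
  · exfalso
    apply hg
    apply Subtype.coe_injective
    change (χ g : ℂ) = ((1 : Circle) : ℂ)
    rw [Circle.coe_one]
    linear_combination -h
  · exact h

theorem cint [MeasurableSpace K] [BorelSpace K] (μ : Measure K) [μ.IsHaarMeasure] (f : C(K, ℂ)) :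
    Integrable f μ :=
  f.continuous.integrable_of_hasCompactSupport (HasCompactSupport.of_compactSpace f)

/-- subset products of elements on which prescribed characters take the value `-1` are dense -/
theorem K1 {V : Set K} (hV : V ∈ 𝓝 (1 : K)) : ∃ S : Finset (K →ₜ* Circle), (∀ χ ∈ S, χ ≠ 1) ∧
    ∀ h : (K →ₜ* Circle) → K, (∀ χ ∈ S, (χ (h χ) : ℂ) = -1) →
      ∀ κ : K, ∃ T ⊆ S, κ⁻¹ * ∏ χ ∈ T, h χ ∈ V := by
  classical
  let _ : MeasurableSpace K := borel K
  have : BorelSpace K := ⟨rfl⟩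
  let μ : Measure K := Measure.haar
  have hμ : μ.IsHaarMeasure := by dsimp only [μ]; infer_instance
  obtain ⟨b, hb0, hb1, hb⟩ := exists_continuous_zero_one_of_isClosed
    (s := (interior V)ᶜ) (t := {(1 : K)}) isOpen_interior.isClosed_compl isClosed_singleton
    (by
      rw [Set.disjoint_singleton_right]
      intro h
      exact h (mem_interior_iff_mem_nhds.mpr hV))
  have hbpos : 0 < ∫ x, b x ∂μ := by
    apply b.continuous.integral_pos_of_hasCompactSupport_nonneg_nonzero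
      (HasCompactSupport.of_compactSpace b) (fun x => (hb x).1) (x := 1)
    have := hb1 (mem_singleton (1 : K))
    rw [this]
    exact one_ne_zero
  set m := μ.real univ with hm
  have hmpos : 0 < m := by
    rw [hm, Measure.real, ENNReal.toReal_pos_iff]
    exact ⟨isOpen_univ.measure_pos μ ⟨1, mem_univ _⟩, measure_lt_top μ univ⟩
  set ε := (∫ x, b x ∂μ) / (3 * m) with hε
  have hεpos : 0 < ε := by positivity
  set B : C(K, ℂ) := ⟨fun x => (b x : ℂ), Complex.continuous_ofReal.comp b.continuous⟩ with hB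
  obtain ⟨P, hP, hBP⟩ := approx B hεpos
  rw [Finsupp.mem_span_range_iff_exists_finsupp] at hP
  obtain ⟨c, hc⟩ := hP
  have hPx : ∀ x, P x = ∑ χ ∈ c.support, c χ * (χ x : ℂ) := by
    intro x
    rw [← hc, Finsupp.sum, ContinuousMap.coe_sum, Finset.sum_apply]
    rfl
  have hclose : ∀ x, ‖(b x : ℂ) - P x‖ ≤ ε := by
    intro x
    have := (B - P).norm_coe_le_norm x
    exact this.trans hBP.le
  -- the constant coefficient
  have hint : ∫ x, P x ∂μ = c 1 * m := by
    have h1 : ∀ x, P x = ∑ χ ∈ c.support, c χ * (χ x : ℂ) := hPx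
    simp only [h1]
    rw [integral_finsetSum]
    · have h2 : ∀ χ ∈ c.support, ∫ x, c χ * (χ x : ℂ) ∂μ = if χ = 1 then c 1 * m else 0 := by
        intro χ _
        rw [integral_const_mul]
        by_cases hχ : χ = 1
        · rw [if_pos hχ, hχ]
          have : ∀ x : K, (((1 : K →ₜ* Circle) x : Circle) : ℂ) = 1 := fun x => by simp
          simp only [this]
          rw [integral_const]
          simp [hm]
        · rw [if_neg hχ, integral_char μ χ hχ, mul_zero]
      rw [Finset.sum_congr rfl h2, Finset.sum_ite_eq']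
      by_cases h : (1 : K →ₜ* Circle) ∈ c.support
      · rw [if_pos h]
      · rw [if_neg h, Finsupp.notMem_support_iff.mp h, zero_mul]
    · intro χ _
      exact (cint μ (cf χ)).const_mul _
  have hc1 : 2 * ε ≤ ‖c 1‖ := by
    have h1 : ‖(∫ x, (b x : ℂ) ∂μ) - ∫ x, P x ∂μ‖ ≤ ε * m := by
      have hI : Integrable (fun x => (b x : ℂ)) μ := cint μ B
      rw [← integral_sub hI (cint μ P)]
      exact norm_integral_le_of_norm_le_const (Filter.Eventually.of_forall hclose)
    rw [hint] at h1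
    have h2 : ‖(∫ x, (b x : ℂ) ∂μ)‖ = ∫ x, b x ∂μ := by
      rw [integral_complex_ofReal, Complex.norm_real, Real.norm_eq_abs, abs_of_pos hbpos]
    have h3 : ‖c 1 * (m : ℂ)‖ = ‖c 1‖ * m := by
      rw [norm_mul, Complex.norm_real, Real.norm_eq_abs, abs_of_pos hmpos]
    have h4 := norm_sub_norm_le (∫ x, (b x : ℂ) ∂μ) (c 1 * (m : ℂ))
    rw [h2, h3] at h4
    have h5 : ∫ x, b x ∂μ = 3 * (ε * m) := by rw [hε]; field_simp
    have h6 : 2 * ε * m ≤ ‖c 1‖ * m := by nlinarith
    exact le_of_mul_le_mul_right h6 hmpos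
  refine ⟨c.support.erase 1, fun χ hχ => Finset.ne_of_mem_erase hχ, ?_⟩
  intro h hh κ
  set S := c.support.erase 1 with hS
  by_contra hcon
  push Not at hcon
  have hzero : ∀ T ∈ S.powerset, ‖P (κ⁻¹ * ∏ χ ∈ T, h χ)‖ ≤ ε := by
    intro T hT
    have h1 := hcon T (Finset.mem_powerset.mp hT)
    have h2 : b (κ⁻¹ * ∏ χ ∈ T, h χ) = 0 := hb0 (fun hi => h1 (interior_subset hi))
    have h3 := hclose (κ⁻¹ * ∏ χ ∈ T, h χ)
    rw [h2] at h3
    simpa using h3
  have hsum : ∑ T ∈ S.powerset, P (κ⁻¹ * ∏ χ ∈ T, h χ) = c 1 * 2 ^ S.card := by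
    have e1 : ∀ T, P (κ⁻¹ * ∏ χ ∈ T, h χ) =
        ∑ χ ∈ c.support, (c χ * (χ κ⁻¹ : ℂ)) * ∏ ψ ∈ T, (χ (h ψ) : ℂ) := by
      intro T
      rw [hPx]
      refine Finset.sum_congr rfl (fun χ _ => ?_)
      rw [map_mul, map_prod, Circle.coe_mul, mul_assoc]
      congr 2
      exact map_prod Circle.coeHom _ _
    rw [Finset.sum_congr rfl (fun T _ => e1 T), Finset.sum_comm]
    have e2 : ∀ χ ∈ c.support, ∑ T ∈ S.powerset, (c χ * (χ κ⁻¹ : ℂ)) * ∏ ψ ∈ T, (χ (h ψ) : ℂ) =
        if χ = 1 then c 1 * 2 ^ S.card else 0 := by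
      intro χ hχ
      rw [← Finset.mul_sum, ← Finset.prod_one_add]
      by_cases h1 : χ = 1
      · rw [if_pos h1, h1]
        have : ∀ x : K, (((1 : K →ₜ* Circle) x : Circle) : ℂ) = 1 := fun x => by simp
        simp only [this]
        rw [mul_one, Finset.prod_const]
        norm_num
      · rw [if_neg h1]
        have hχS : χ ∈ S := Finset.mem_erase.mpr ⟨h1, hχ⟩
        rw [Finset.prod_eq_zero hχS (by rw [hh χ hχS]; ring), mul_zero]
    rw [Finset.sum_congr rfl e2, Finset.sum_ite_eq']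
    by_cases h1 : (1 : K →ₜ* Circle) ∈ c.support
    · rw [if_pos h1]
    · rw [if_neg h1, Finsupp.notMem_support_iff.mp h1, zero_mul]
  have hle : ‖∑ T ∈ S.powerset, P (κ⁻¹ * ∏ χ ∈ T, h χ)‖ ≤ 2 ^ S.card * ε := by
    refine (norm_sum_le _ _).trans ?_
    refine (Finset.sum_le_sum hzero).trans ?_
    rw [Finset.sum_const, Finset.card_powerset, nsmul_eq_mul]
    push_cast
    exact le_rfl
  rw [hsum, norm_mul, norm_pow, Complex.norm_ofNat] at hle
  have hp : (0 : ℝ) < 2 ^ S.card := by positivity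
  have h7 : ‖c 1‖ ≤ ε := by
    rw [mul_comm] at hle
    exact le_of_mul_le_mul_left hle hp
  linarith

end Chars

end Pool.Agent.R783.Nil
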