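import Pool.Agent.R783.Nil.Dn

/-!
# `R_e`-sequences and rotations of compact abelian groups
-/

namespace Pool.Agent.R783.Nil

open Topology Set Filter
open scoped commutatorElement Pointwise Uniformity

universe u

/-- every forward orbit `{T^n x : n ≥ 1}` is dense -/
def IsMin {X : Type u} [TopologicalSpace X] (T : X → X) : Prop :=
  ∀ x, Dense {y | ∃ n : ℕ, 1 ≤ n ∧ y = T^[n] x}

/-- `A` (a set of positive integers) is an `R_e`-sequence: every minimal equicontinuous system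
contains a point whose orbit along `A` is dense. -/
def IsRe (A : Set ℕ) : Prop :=
  (∀ n ∈ A, 1 ≤ n) ∧ ∀ (X : Type u) [MetricSpace X] [CompactSpace X] [Nonempty X] (T : X → X),
    Continuous T → Function.Surjective T → IsMin T → Equicontinuous (fun n : ℕ => T^[n]) →
    ∃ x, Dense {y | ∃ n ∈ A, y = T^[n] x}

theorem exp_one_pow {n : ℕ} (hn : 1 ≤ n) : (Circle.exp 1) ^ n ≠ 1 := by
  intro h
  have hgen : ∀ n : ℕ, Circle.exp (n : ℝ) = (Circle.exp 1) ^ n := by
    intro n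
    induction n with
    | zero => simp
    | succ n ih => rw [Nat.cast_succ, Circle.exp_add, pow_succ, ih]
  have h1 : Circle.exp (n : ℝ) = 1 := by rw [hgen, h]
  rw [Circle.exp_eq_one] at h1
  obtain ⟨m, hm⟩ := h1
  have hm0 : (m : ℝ) ≠ 0 := by
    intro h0
    rw [h0, zero_mul] at hm
    have : (1 : ℝ) ≤ n := by exact_mod_cast hn
    linarith
  have hpi : Real.pi = ((n : ℚ) / (2 * (m : ℚ)) : ℚ) := by
    push_cast
    field_simp
    linarith
  exact irrational_pi ⟨_, hpi.symm⟩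

section Rot

variable {Z : Type u} [CommGroup Z] [TopologicalSpace Z] [IsTopologicalGroup Z] [CompactSpace Z]
  [T2Space Z] [FirstCountableTopology Z]

/-- closure of the group generated by an element is metrizable -/
theorem metr (K : Type u) [CommGroup K] [TopologicalSpace K] [IsTopologicalGroup K]
    [T2Space K] [FirstCountableTopology K] : TopologicalSpace.MetrizableSpace K := by
  let _ : UniformSpace K := IsTopologicalGroup.rightUniformSpace K
  have : IsUniformGroup K := isUniformGroup_of_commGroup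
  have : (𝓤 K).IsCountablyGenerated := IsUniformGroup.uniformity_countably_generated
  exact UniformSpace.metrizableSpace

theorem re_monothetic {A : Set ℕ} (hA : IsRe.{u} A) (K : Type u) [CommGroup K]
    [TopologicalSpace K] [IsTopologicalGroup K] [T2Space K] [CompactSpace K]
    [FirstCountableTopology K] {g : K} (hg : DenseRange (fun n : ℤ => g ^ n)) :
    Dense {y : K | ∃ n ∈ A, y = g ^ n} := by
  have hm := metr K
  let _ : MetricSpace K := TopologicalSpace.metrizableSpaceMetric K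
  have hiter : ∀ (n : ℕ) (x : K), (fun x => g * x)^[n] x = g ^ n * x := by
    intro n
    induction n with
    | zero => intro x; simp
    | succ n ih =>
      intro x
      rw [Function.iterate_succ_apply, ih, pow_succ, mul_assoc]
  have hpos : Dense {y : K | ∃ n : ℕ, 1 ≤ n ∧ y = g ^ n} := by
    have h1 : DenseRange (fun n : ℕ => g ^ n) := denseRange_zpow_iff_pow.mp hg
    have h2 : Dense ((fun x : K => g * x) '' range (fun n : ℕ => g ^ n)) :=
      (Homeomorph.mulLeft g).surjective.denseRange.dense_image (Homeomorph.mulLeft g).continuous h1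
    refine h2.mono ?_
    rintro _ ⟨_, ⟨n, rfl⟩, rfl⟩
    exact ⟨n + 1, by omega, by simp only [pow_succ']⟩
  obtain ⟨ω, hω⟩ := hA.2 K (fun x => g * x) (by fun_prop) (Homeomorph.mulLeft g).surjective (by
    intro x
    have h2 : Dense ((fun y : K => y * x) '' {y : K | ∃ n : ℕ, 1 ≤ n ∧ y = g ^ n}) :=
      (Homeomorph.mulRight x).surjective.denseRange.dense_image (Homeomorph.mulRight x).continuous
        hpos
    refine h2.mono ?_
    rintro _ ⟨_, ⟨n, hn, rfl⟩, rfl⟩
    exact ⟨n, hn, (hiter n x).symm⟩) (by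
    have huc : UniformContinuous (fun p : K × K => p.1 * p.2) :=
      CompactSpace.uniformContinuous_of_continuous (by fun_prop)
    intro x0
    rw [Metric.equicontinuousAt_iff]
    intro ε hε
    obtain ⟨δ, hδ, h⟩ := Metric.uniformContinuous_iff.mp huc ε hε
    refine ⟨δ, hδ, fun x hx n => ?_⟩
    rw [hiter, hiter]
    apply h (a := (g ^ n, x0)) (b := (g ^ n, x))
    rw [Prod.dist_eq]
    simp only [dist_self]
    rw [dist_comm x0 x]
    exact max_lt hδ hx)
  have h3 : Dense ((fun y : K => y * ω⁻¹) '' {y | ∃ n ∈ A, y = (fun x => g * x)^[n] ω}) :=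
    (Homeomorph.mulRight ω⁻¹).surjective.denseRange.dense_image
      (Homeomorph.mulRight ω⁻¹).continuous hω
  refine h3.mono ?_
  rintro _ ⟨_, ⟨n, hn, rfl⟩, rfl⟩
  exact ⟨n, hn, by simp only [hiter]; group⟩

theorem re_tail {A : Set ℕ} (hA : IsRe.{u} A) {z : Z} (hz : DenseRange (fun n : ℕ => z ^ n))
    (m : ℕ) : Dense {y : Z | ∃ n ∈ A, m ≤ n ∧ y = z ^ n} := by
  set g : Z × Circle := (z, Circle.exp 1) with hg
  set Ω : Subgroup (Z × Circle) := (Subgroup.zpowers g).topologicalClosure with hΩ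
  have hgΩ : g ∈ Ω := Subgroup.le_topologicalClosure _ (Subgroup.mem_zpowers g)
  set g' : Ω := ⟨g, hgΩ⟩ with hg'
  have hcl : IsClosed (Ω : Set (Z × Circle)) := Subgroup.isClosed_topologicalClosure _
  have hcp : CompactSpace Ω := isCompact_iff_compactSpace.mp hcl.isCompact
  have hfc : FirstCountableTopology Ω := IsInducing.subtypeVal.firstCountableTopology
  have hdz : DenseRange (fun n : ℤ => g' ^ n) := by
    have : Dense (range (fun n : ℤ => g' ^ n)) := by
      rw [Subtype.dense_iff]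
      intro x hx
      have h1 : x ∈ closure ((Subgroup.zpowers g : Subgroup (Z × Circle)) : Set (Z × Circle)) := hx
      refine closure_mono ?_ h1
      rintro _ ⟨n, rfl⟩
      exact ⟨g' ^ n, ⟨n, rfl⟩, by simp [hg']⟩
    exact this
  have hd := re_monothetic hA Ω hdz
  have hpow : ∀ n : ℕ, 1 ≤ n → g' ^ n ≠ 1 := by
    intro n hn h
    have h1 : ((g' ^ n : Ω) : Z × Circle) = 1 := by rw [h]; rfl
    have h2 : (g ^ n).2 = 1 := by
      have : ((g' ^ n : Ω) : Z × Circle) = g ^ n := by simp [hg']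
      rw [← this, h1]; rfl
    exact exp_one_pow hn h2
  have hne : ∀ x : Ω, NeBot (𝓝[≠] x) := by
    intro x
    by_contra hcon
    rw [not_neBot, ← isOpen_singleton_iff_punctured_nhds] at hcon
    have h1 : IsOpen ({1} : Set Ω) := by
      have h2 := (Homeomorph.mulLeft x).continuous.isOpen_preimage _ hcon
      convert h2 using 1
      ext y
      simp
    have hdisc : DiscreteTopology Ω := discreteTopology_of_isOpen_singleton_one h1
    have hfin : Finite Ω := finite_of_compact_of_discrete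
    obtain ⟨n, hn, hn1⟩ := (isOfFinOrder_iff_pow_eq_one.mp (isOfFinOrder_of_finite g'))
    exact hpow n hn hn1
  have hd2 : Dense {y : Ω | ∃ n ∈ A, m ≤ n ∧ y = g' ^ n} := by
    classical
    have h1 := hd.sdiff_finset ((Finset.range m).image (fun n => g' ^ n))
    refine h1.mono ?_
    rintro y ⟨⟨n, hn, rfl⟩, hy⟩
    refine ⟨n, hn, ?_, rfl⟩
    by_contra hlt
    push Not at hlt
    apply hy
    exact Finset.mem_coe.mpr (Finset.mem_image.mpr ⟨n, Finset.mem_range.mpr hlt, rfl⟩)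
  have hpr : DenseRange (fun x : Ω => (x : Z × Circle).1) := by
    refine Dense.mono ?_ hz
    rintro _ ⟨n, rfl⟩
    exact ⟨g' ^ n, by simp [hg', hg]⟩
  have h4 := hpr.dense_image (by fun_prop) hd2
  refine h4.mono ?_
  rintro _ ⟨_, ⟨n, hn, hmn, rfl⟩, rfl⟩
  exact ⟨n, hn, hmn, by simp [hg', hg]⟩

end Rot

section Abs

variable {G : Type u} [Group G] [TopologicalSpace G] [IsTopologicalGroup G]

theorem split_inv {W : Set G} (hW : W ∈ 𝓝 (1 : G)) :
    ∃ W1 ∈ 𝓝 (1 : G), ∀ p ∈ W1, ∀ q ∈ W1, p⁻¹ * q ∈ W := by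
  obtain ⟨W1, hW1, h⟩ := split3 hW
  refine ⟨W1, hW1, fun p hp q hq => ?_⟩
  have := h p hp 1 (mem_of_mem_nhds hW1) q hq
  rwa [mul_one] at this

/-- **Main transitivity statement for abstract groups.** -/
theorem abs_main [FirstCountableTopology G] [LocallyConnectedSpace G] {Γ : Subgroup G}
    [CompactSpace (G ⧸ Γ)] (hΓ : IsClosed (Γ : Set G)) {s : ℕ} (hs : D G s = ⊥) {a : G}
    (hgen : ∀ R : Subgroup G, IsOpen (R : Set G) → a ∈ R → R = ⊤)
    (hdense : Dense {g : G | ∃ n : ℕ, ∃ γ ∈ Γ, g = a ^ n * γ}) {A : Set ℕ} (hA : IsRe.{u} A)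
    {O W : Set G} (hO : O ∈ 𝓝 (1 : G)) (hW : W ∈ 𝓝 (1 : G)) (g1 g2 : G) :
    ∃ n ∈ A, ∃ o ∈ O, ∃ w ∈ W, ∃ γ ∈ Γ, a ^ n * o * g1 = w * g2 * γ := by
  obtain ⟨W1, hW1, hW1s⟩ := split_inv hW
  obtain ⟨n0, hn0⟩ := fd_one hgen hdense hΓ hs O hO W1 hW1
  obtain ⟨W2, hW2s, hW2o, h1W2⟩ := mem_nhds_iff.mp hW1
  -- the Kronecker factor
  set N1 := Nk Γ 1 with hN1
  have hall : ∀ g : G, g ∈ Nk Γ 0 := fun g => D_le_Nk Γ 0 (Subgroup.mem_top g)
  have hnorm : N1.Normal := ⟨fun m hm g => Nk_conj Γ 0 (hall g) hm⟩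
  have hcomm : ∀ x y : G ⧸ N1, x * y = y * x := by
    intro x y
    obtain ⟨x, rfl⟩ := QuotientGroup.mk_surjective x
    obtain ⟨y, rfl⟩ := QuotientGroup.mk_surjective y
    rw [← QuotientGroup.mk_mul, ← QuotientGroup.mk_mul, QuotientGroup.eq]
    have h1 := Nk_comm Γ 0 (hall y⁻¹) (hall x⁻¹)
    have e : (x * y)⁻¹ * (y * x) = ⁅y⁻¹, x⁻¹⁆ := by rw [commutatorElement_def]; group
    rw [e]; exact h1
  let inst : CommGroup (G ⧸ N1) := { (inferInstance : Group (G ⧸ N1)) with mul_comm := hcomm }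
  have htg : IsTopologicalGroup (G ⧸ N1) := QuotientGroup.instIsTopologicalGroup N1
  have hT3 : T3Space (G ⧸ N1) := by
    have : IsClosed (N1 : Set G) := Nk_closed Γ 1
    exact QuotientGroup.instT3Space N1
  have hcp : CompactSpace (G ⧸ N1) := by
    have hc : Continuous (Subgroup.quotientMapOfLE (Γ_le_Nk Γ 1)) := by
      rw [(QuotientGroup.isQuotientMap_mk Γ).continuous_iff]
      exact QuotientGroup.continuous_mk
    have hsur : Function.Surjective (Subgroup.quotientMapOfLE (Γ_le_Nk Γ 1)) := by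
      intro q
      obtain ⟨x, rfl⟩ := QuotientGroup.mk_surjective q
      exact ⟨(x : G ⧸ Γ), rfl⟩
    exact hsur.compactSpace hc
  have hpowz : ∀ n : ℕ, ((a : G ⧸ N1)) ^ n = ((a ^ n : G) : G ⧸ N1) := fun n =>
    (QuotientGroup.mk_pow N1 a n).symm
  have hz : DenseRange (fun n : ℕ => (a : G ⧸ N1) ^ n) := by
    have h1 : Dense ((QuotientGroup.mk : G → G ⧸ N1) '' {g : G | ∃ n : ℕ, ∃ γ ∈ Γ, g = a ^ n * γ}) :=
      (QuotientGroup.mk_surjective).denseRange.dense_image QuotientGroup.continuous_mk hdense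
    refine h1.mono ?_
    rintro _ ⟨_, ⟨n, γ, hγ, rfl⟩, rfl⟩
    refine ⟨n, ?_⟩
    show (a : G ⧸ N1) ^ n = _
    rw [hpowz, QuotientGroup.eq]
    have e : (a ^ n)⁻¹ * (a ^ n * γ) = γ := by group
    rw [e]; exact Γ_le_Nk Γ 1 hγ
  have htail := re_tail hA hz n0
  have hUo : IsOpen ((fun q : G ⧸ N1 => q * (g1 : G ⧸ N1)) ⁻¹'
      ((QuotientGroup.mk : G → G ⧸ N1) '' ((fun x => x * g2⁻¹) ⁻¹' W2))) := by
    apply IsOpen.preimage (by fun_prop)
    apply QuotientGroup.isOpenMap_coe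
    exact hW2o.preimage (by fun_prop)
  have hUne : ((fun q : G ⧸ N1 => q * (g1 : G ⧸ N1)) ⁻¹'
      ((QuotientGroup.mk : G → G ⧸ N1) '' ((fun x => x * g2⁻¹) ⁻¹' W2))).Nonempty := by
    refine ⟨(g2 : G ⧸ N1) * (g1 : G ⧸ N1)⁻¹, g2, ?_, ?_⟩
    · show g2 * g2⁻¹ ∈ W2
      rwa [mul_inv_cancel]
    · show (g2 : G ⧸ N1) = (g2 : G ⧸ N1) * (g1 : G ⧸ N1)⁻¹ * (g1 : G ⧸ N1)
      rw [inv_mul_cancel_right]
  obtain ⟨q, hqU, n, hnA, hn, rfl⟩ := htail.inter_open_nonempty _ hUo hUne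
  obtain ⟨x, hxW, hx⟩ := hqU
  have hx' : (x : G ⧸ N1) = ((a ^ n * g1 : G) : G ⧸ N1) := by
    rw [QuotientGroup.mk_mul, ← hpowz]; exact hx
  have hκ : (a ^ n * g1)⁻¹ * x ∈ Nk Γ 1 := QuotientGroup.eq.mp hx'.symm
  obtain ⟨o, ho, w, hw, γ, hγ, e⟩ := hn0 n hn g1 _ hκ
  have hxw : x = (x * g2⁻¹) * g2 := by group
  refine ⟨n, hnA, o, ho, w⁻¹ * (x * g2⁻¹), hW1s w hw _ (hW2s hxW), γ⁻¹, Γ.inv_mem hγ, ?_⟩
  have e2 : w * (a ^ n * o * g1) * γ = x := by rw [e]; group
  have e3 : a ^ n * o * g1 = w⁻¹ * x * γ⁻¹ := by rw [← e2]; group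
  rw [e3]; group

end Abs

end Pool.Agent.R783.Nil
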