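import Pool.Agent.R783.Nil.Final

/-!
# Universe independence of the definition of `R_e`-sequences
-/

namespace Pool.Agent.R783.Nil

open Topology Set Filter

universe u

/-- a compact metric space is small -/
theorem small_compact (X : Type u) [MetricSpace X] [CompactSpace X] : Small.{0} X := by
  have : SecondCountableTopology X := inferInstance
  obtain ⟨f, hf⟩ := TopologicalSpace.exists_isInducing_l_infty X
  have hinj : Function.Injective f := hf.injective
  exact small_of_injective hinj

theorem isRe_lift {A : Set ℕ} (h : IsRe.{0} A) : IsRe.{u} A := by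
  refine ⟨h.1, ?_⟩
  intro X _ _ _ T hTc hTs hTm hTe
  have hsm : Small.{0} X := small_compact X
  let e : X ≃ Shrink.{0} X := equivShrink X
  let _ : MetricSpace (Shrink.{0} X) := MetricSpace.induced e.symm e.symm.injective inferInstance
  have hiso : Isometry e.symm := by
    intro x y
    rfl
  have hes : Continuous e.symm := hiso.continuous
  have hisoe : Isometry e := by
    intro x y
    rw [← hiso.edist_eq]
    simp
  have he : Continuous e := hisoe.continuous
  have hcomp : CompactSpace (Shrink.{0} X) := by
    constructor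
    rw [← e.surjective.range_eq]
    exact isCompact_range he
  have hne : Nonempty (Shrink.{0} X) := ⟨e (Classical.arbitrary X)⟩
  let S : Shrink.{0} X → Shrink.{0} X := fun y => e (T (e.symm y))
  have hSn : ∀ (n : ℕ) (y), S^[n] y = e (T^[n] (e.symm y)) := by
    intro n
    induction n with
    | zero => intro y; simp
    | succ n ih =>
      intro y
      rw [Function.iterate_succ_apply, ih, Function.iterate_succ_apply]
      simp [S]
  have hSc : Continuous S := he.comp (hTc.comp hes)
  have hSs : Function.Surjective S := e.surjective.comp (hTs.comp e.symm.surjective)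
  have hdm : ∀ D : Set X, Dense D → Dense (e '' D) := fun D hD =>
    e.surjective.denseRange.dense_image he hD
  have hdm' : ∀ D : Set (Shrink.{0} X), Dense D → Dense (e.symm '' D) := fun D hD =>
    e.symm.surjective.denseRange.dense_image hes hD
  have hSm : IsMin S := by
    intro y
    have h1 := hdm _ (hTm (e.symm y))
    refine h1.mono ?_
    rintro _ ⟨z, ⟨n, hn, rfl⟩, rfl⟩
    exact ⟨n, hn, (hSn n y).symm⟩
  have hSe : Equicontinuous (fun n : ℕ => S^[n]) := by
    intro y
    rw [Metric.equicontinuousAt_iff]
    intro ε hε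
    have h1 := Metric.equicontinuousAt_iff.mp (hTe (e.symm y)) ε hε
    obtain ⟨δ, hδ, h2⟩ := h1
    refine ⟨δ, hδ, ?_⟩
    intro z hz n
    rw [hSn, hSn, hisoe.dist_eq]
    refine h2 _ ?_ n
    rwa [hiso.dist_eq]
  obtain ⟨y, hy⟩ := h.2 (Shrink.{0} X) S hSc hSs hSm hSe
  refine ⟨e.symm y, ?_⟩
  have h1 := hdm' _ hy
  refine h1.mono ?_
  rintro _ ⟨z, ⟨n, hn, rfl⟩, rfl⟩
  refine ⟨n, hn, ?_⟩
  rw [hSn]; simp

end Pool.Agent.R783.Nil
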